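import Pool.Agent.V11231.CES.Final

/-!
# One-in-three satisfiability without negations is NP-hard
-/

set_option autoImplicit false

namespace Pool.Agent.V11231.CSR

open Pool.Agent.NPC Pool.Agent.V11231.CES

/-- positive clauses -/
abbrev P3 : Type := List (ℕ × ℕ × ℕ)

/-- exactly one of three -/
def Ex1 (a b c : Bool) : Prop := (a = true ∧ b = false ∧ c = false) ∨
  (a = false ∧ b = true ∧ c = false) ∨ (a = false ∧ b = false ∧ c = true)

/-- one-in-three satisfiability without negations -/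
def One3 (ψ : P3) : Prop := ∃ τ : ℕ → Bool, ∀ c ∈ ψ, Ex1 (τ c.1) (τ c.2.1) (τ c.2.2)

/-- the variable of a literal -/
def pvr (l : Lit ℕ) : ℕ := if l.1 = true then 8 * l.2 else 8 * l.2 + 1

/-- the variable of the negated literal -/
def nvr (l : Lit ℕ) : ℕ := if l.1 = true then 8 * l.2 + 1 else 8 * l.2

/-- the clauses for a clause -/
def tr1 (q : (Lit ℕ × Lit ℕ × Lit ℕ) × ℕ) : P3 :=
  [(nvr q.1.1, 8 * q.2 + 3, 8 * q.2 + 4), (8 * q.2 + 4, pvr q.1.2.1, 8 * q.2 + 5),
    (8 * q.2 + 5, 8 * q.2 + 6, nvr q.1.2.2), (pvr q.1.1, nvr q.1.1, 2),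
    (pvr q.1.2.1, nvr q.1.2.1, 2), (pvr q.1.2.2, nvr q.1.2.2, 2)]

/-- the reduction -/
def trf (φ : F3) : P3 := (2, 2, 7) :: φ.zipIdx.flatMap tr1

/-- the assignment -/
def asg (φ : F3) (τ : ℕ → Bool) (x : ℕ) : Bool :=
  let c := φ.getD (x / 8) ((true, 0), (true, 0), (true, 0))
  let t := fun l : Lit ℕ => decide (τ l.2 = l.1)
  if x % 8 = 0 then τ (x / 8)
  else if x % 8 = 1 then !τ (x / 8)
  else if x % 8 = 2 then false
  else if x % 8 = 7 then true
  else if x % 8 = 4 then (!t c.2.1 && t c.1)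
  else if x % 8 = 5 then (!t c.2.1 && !t c.1)
  else if x % 8 = 3 then (t c.1 && t c.2.1)
  else (t c.2.2 && !(!t c.2.1 && !t c.1))

theorem asg_pvr (φ : F3) (τ : ℕ → Bool) (l : Lit ℕ) : asg φ τ (pvr l) = decide (τ l.2 = l.1) := by
  rcases l with ⟨s, v⟩
  cases s with
  | true =>
    have e1 : 8 * v % 8 = 0 := by omega
    have e2 : 8 * v / 8 = v := by omega
    simp [pvr, asg, e2]
  | false =>
    have e1 : (8 * v + 1) % 8 = 1 := by omega
    have e2 : (8 * v + 1) / 8 = v := by omega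
    simp [pvr, asg, e1, e2]

theorem asg_nvr (φ : F3) (τ : ℕ → Bool) (l : Lit ℕ) : asg φ τ (nvr l) = !decide (τ l.2 = l.1) := by
  rcases l with ⟨s, v⟩
  cases s with
  | true =>
    have e1 : (8 * v + 1) % 8 = 1 := by omega
    have e2 : (8 * v + 1) / 8 = v := by omega
    simp [nvr, asg, e1, e2]
  | false =>
    have e1 : 8 * v % 8 = 0 := by omega
    have e2 : 8 * v / 8 = v := by omega
    simp [nvr, asg, e2]

theorem trf_iff (φ : F3) : SAT3 φ ↔ One3 (trf φ) := by
  constructor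
  · rintro ⟨τ, h⟩
    refine ⟨asg φ τ, ?_⟩
    intro c hc
    rw [trf, List.mem_cons, List.mem_flatMap] at hc
    rcases hc with rfl | ⟨⟨d, j⟩, hd, hc⟩
    · simp [asg, Ex1]
    · rw [List.mem_zipIdx_iff_getElem?] at hd
      simp only at hd
      obtain ⟨hj, hd⟩ := List.getElem?_eq_some_iff.1 hd
      have hget : φ.getD j ((true, 0), (true, 0), (true, 0)) = d := by simp [hj, hd]
      have hsat := h d (by rw [← hd]; exact List.getElem_mem hj)
      have a2 : ∀ x, x = 2 → asg φ τ x = false := by rintro x rfl; simp [asg]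
      have a3 : asg φ τ (8 * j + 3) = (decide (τ d.1.2 = d.1.1) && decide (τ d.2.1.2 = d.2.1.1)) := by
        have e1 : (8 * j + 3) % 8 = 3 := by omega
        have e2 : (8 * j + 3) / 8 = j := by omega
        simp only [asg, e1, e2, hget]
        simp
      have a4 : asg φ τ (8 * j + 4) = (!decide (τ d.2.1.2 = d.2.1.1) && decide (τ d.1.2 = d.1.1)) := by
        have e1 : (8 * j + 4) % 8 = 4 := by omega
        have e2 : (8 * j + 4) / 8 = j := by omega
        simp only [asg, e1, e2, hget]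
        simp
      have a5 : asg φ τ (8 * j + 5) = (!decide (τ d.2.1.2 = d.2.1.1) && !decide (τ d.1.2 = d.1.1)) := by
        have e1 : (8 * j + 5) % 8 = 5 := by omega
        have e2 : (8 * j + 5) / 8 = j := by omega
        simp only [asg, e1, e2, hget]
        simp
      have a6 : asg φ τ (8 * j + 6) = (decide (τ d.2.2.2 = d.2.2.1) &&
          !(!decide (τ d.2.1.2 = d.2.1.1) && !decide (τ d.1.2 = d.1.1))) := by
        have e1 : (8 * j + 6) % 8 = 6 := by omega
        have e2 : (8 * j + 6) / 8 = j := by omega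
        simp only [asg, e1, e2, hget]
        simp
      simp only [tr1, List.mem_cons, List.not_mem_nil, or_false] at hc
      rcases hc with rfl | rfl | rfl | rfl | rfl | rfl
      · simp only [asg_nvr, a3, a4, Ex1]
        by_cases h1 : τ d.1.2 = d.1.1 <;> by_cases h2 : τ d.2.1.2 = d.2.1.1 <;> simp [h1, h2]
      · simp only [asg_pvr, a4, a5, Ex1]
        by_cases h1 : τ d.1.2 = d.1.1 <;> by_cases h2 : τ d.2.1.2 = d.2.1.1 <;> simp [h1, h2]
      · simp only [asg_nvr, a5, a6, Ex1]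
        by_cases h1 : τ d.1.2 = d.1.1 <;> by_cases h2 : τ d.2.1.2 = d.2.1.1 <;>
          by_cases h3 : τ d.2.2.2 = d.2.2.1 <;> simp [h1, h2, h3]
        simp [h1, h2, h3] at hsat
      · simp only [asg_pvr, asg_nvr, a2 2 rfl, Ex1]
        by_cases h1 : τ d.1.2 = d.1.1 <;> simp [h1]
      · simp only [asg_pvr, asg_nvr, a2 2 rfl, Ex1]
        by_cases h1 : τ d.2.1.2 = d.2.1.1 <;> simp [h1]
      · simp only [asg_pvr, asg_nvr, a2 2 rfl, Ex1]
        by_cases h1 : τ d.2.2.2 = d.2.2.1 <;> simp [h1]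
  · rintro ⟨σ, h⟩
    refine ⟨fun v => σ (8 * v), ?_⟩
    intro d hd
    obtain ⟨j, hj, rfl⟩ := List.getElem_of_mem hd
    have hmem : ∀ c ∈ tr1 (φ[j], j), c ∈ trf φ := by
      intro c hc
      rw [trf, List.mem_cons, List.mem_flatMap]
      refine Or.inr ⟨(φ[j], j), ?_, hc⟩
      rw [List.mem_zipIdx_iff_getElem?]
      simp [hj]
    generalize φ[j] = d at *
    have h2 : σ 2 = false := by
      have := h (2, 2, 7) (by simp [trf])
      unfold Ex1 at this
      simp only at this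
      cases h : σ 2 <;> simp_all
    have k1 := h _ (hmem (nvr d.1, 8 * j + 3, 8 * j + 4) (by simp [tr1]))
    have k2 := h _ (hmem (8 * j + 4, pvr d.2.1, 8 * j + 5) (by simp [tr1]))
    have k3 := h _ (hmem (8 * j + 5, 8 * j + 6, nvr d.2.2) (by simp [tr1]))
    have k4 := h _ (hmem (pvr d.1, nvr d.1, 2) (by simp [tr1]))
    have k5 := h _ (hmem (pvr d.2.1, nvr d.2.1, 2) (by simp [tr1]))
    have k6 := h _ (hmem (pvr d.2.2, nvr d.2.2, 2) (by simp [tr1]))
    simp only [h2] at k4 k5 k6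
    have key : ∀ l : Lit ℕ, Ex1 (σ (pvr l)) (σ (nvr l)) false →
        (σ (8 * l.2) = l.1 ↔ σ (pvr l) = true) := by
      rintro ⟨s, v⟩ hl
      cases s with
      | true => simp [pvr]
      | false =>
        simp only [pvr, nvr, Bool.false_eq_true, if_false, Ex1] at hl ⊢
        cases hx : σ (8 * v) <;> cases hy : σ (8 * v + 1) <;> simp_all
    rw [key _ k4, key _ k5, key _ k6]
    unfold Ex1 at k1 k2 k3 k4 k6
    cases x1 : σ (pvr d.1) <;> cases x2 : σ (pvr d.2.1) <;> cases x3 : σ (pvr d.2.2) <;>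
      cases y1 : σ (nvr d.1) <;> cases y3 : σ (nvr d.2.2) <;> simp_all

@[fun_prop]
theorem pvr_poly {α : Type} [TEnc α] {f : α → Lit ℕ} (hf : Poly f) :
    Poly (fun a => pvr (f a)) := by
  unfold pvr; fun_prop

@[fun_prop]
theorem nvr_poly {α : Type} [TEnc α] {f : α → Lit ℕ} (hf : Poly f) :
    Poly (fun a => nvr (f a)) := by
  unfold nvr; fun_prop

@[fun_prop]
theorem tr1_poly {α : Type} [TEnc α] {f : α → (Lit ℕ × Lit ℕ × Lit ℕ) × ℕ} (hf : Poly f) :
    Poly (fun a => tr1 (f a)) := by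
  unfold tr1; fun_prop

theorem trf_poly : Poly trf := by
  unfold trf; fun_prop

theorem hardI_One3 : HardI One3 := hardI_SAT3.trans trf_poly trf_iff

end Pool.Agent.V11231.CSR
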