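import Pool.Agent.V11231.CSR.Gad

/-!
# Cycle stable roommates matchings: completeness, membership in NP
-/

set_option autoImplicit false

namespace Pool.Agent.V11231.CSR

open Pool.Agent.NPC Pool.Agent.V11231.CES Pool.Agent.V11231.Util

section

variable {ψ : P3} {t : ℕ → Bool}

/-- the matching of an assignment -/
def mt (ψ : P3) (t : ℕ → Bool) (z : ℕ) : Option ℕ :=
  if 4 * (3 * ψ.length) ≤ z then none
  else if z % 4 = 0 then
    if t (z / 4) = true then some (4 * nx (z / 4))
    else if t (pv (z / 4)) = true then some (4 * pv (z / 4)) else some (4 * pv (z / 4) + 1)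
  else if z % 4 = 1 then
    if t (z / 4) = true then some (z + 1)
    else if t (nx (z / 4)) = true then some (4 * pd ψ (nx (z / 4)) + 3) else some (4 * nx (z / 4))
  else if z % 4 = 2 then
    if t (z / 4) = true then some (z - 1) else some (z + 1)
  else
    if t (z / 4) = true then some (4 * pv (sc ψ (z / 4)) + 1) else some (z - 1)

theorem mt0 {s : ℕ} (hs : s < 3 * ψ.length) : mt ψ t (4 * s) =
    if t s = true then some (4 * nx s)
    else if t (pv s) = true then some (4 * pv s) else some (4 * pv s + 1) := by
  have e1 : 4 * s % 4 = 0 := by omega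
  have e2 : 4 * s / 4 = s := by omega
  unfold mt
  rw [if_neg (by omega), if_pos e1, e2]

theorem mt1 {s : ℕ} (hs : s < 3 * ψ.length) : mt ψ t (4 * s + 1) =
    if t s = true then some (4 * s + 2)
    else if t (nx s) = true then some (4 * pd ψ (nx s) + 3) else some (4 * nx s) := by
  have e1 : (4 * s + 1) % 4 = 1 := by omega
  have e2 : (4 * s + 1) / 4 = s := by omega
  unfold mt
  rw [if_neg (by omega), if_neg (by omega), if_pos e1, e2]

theorem mt2 {s : ℕ} (hs : s < 3 * ψ.length) : mt ψ t (4 * s + 2) =
    if t s = true then some (4 * s + 1) else some (4 * s + 3) := by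
  have e1 : (4 * s + 2) % 4 = 2 := by omega
  have e2 : (4 * s + 2) / 4 = s := by omega
  unfold mt
  rw [if_neg (by omega), if_neg (by omega), if_neg (by omega), if_pos e1, e2]
  rfl

theorem mt3 {s : ℕ} (hs : s < 3 * ψ.length) : mt ψ t (4 * s + 3) =
    if t s = true then some (4 * pv (sc ψ s) + 1) else some (4 * s + 2) := by
  have e1 : (4 * s + 3) % 4 = 3 := by omega
  have e2 : (4 * s + 3) / 4 = s := by omega
  unfold mt
  rw [if_neg (by omega), if_neg (by omega), if_neg (by omega), if_neg (by omega), e2]
  rfl

variable (hc : ∀ s < 3 * ψ.length, Ex1 (t s) (t (nx s)) (t (pv s)))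
  (ht : ∀ s < 3 * ψ.length, t (sc ψ s) = t s)

include ht in
theorem t_pd {s : ℕ} (hs : s < 3 * ψ.length) : t (pd ψ s) = t s := by
  have := ht (pd ψ s) (pd_lt hs)
  rw [sc_pd hs] at this
  exact this.symm

include hc ht

theorem isMatching : IsMatching (inst ψ) (mt ψ t) := by
  intro a b hab
  have ha : a < 4 * (3 * ψ.length) := by
    by_contra h
    unfold mt at hab
    rw [if_pos (by omega)] at hab
    simp at hab
  obtain ⟨s, hs, rfl | rfl | rfl | rfl⟩ := kinds a ha
  · have h1 := nx_lt hs
    have h2 := pv_lt hs
    have c0 := hc s hs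
    have c1 := hc (nx s) h1
    have c2 := hc (pv s) h2
    rw [nx_nx, pv_nx] at c1
    rw [nx_pv, pv_pv] at c2
    unfold Ex1 at c0 c1 c2
    rw [pl0 hs]
    rw [mt0 hs] at hab
    by_cases g1 : t s = true
    · rw [if_pos g1] at hab
      have hb := Option.some.inj hab
      subst hb
      refine ⟨by simp, ?_⟩
      rw [mt0 h1, pv_nx, if_neg (by simp_all), if_pos g1]
    · rw [if_neg g1] at hab
      by_cases g2 : t (pv s) = true
      · rw [if_pos g2] at hab
        have hb := Option.some.inj hab
        subst hb
        refine ⟨by simp, ?_⟩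
        rw [mt0 h2, nx_pv, if_pos g2]
      · rw [if_neg g2] at hab
        have hb := Option.some.inj hab
        subst hb
        refine ⟨by simp, ?_⟩
        rw [mt1 h2, nx_pv, if_neg g2, if_neg g1]
  · have h1 := nx_lt hs
    have h2 := pd_lt h1
    have c0 := hc s hs
    have c1 := hc (nx s) h1
    rw [nx_nx, pv_nx] at c1
    unfold Ex1 at c0 c1
    have e1 := t_pd ht h1
    rw [pl1 hs]
    rw [mt1 hs] at hab
    by_cases g1 : t s = true
    · rw [if_pos g1] at hab
      have hb := Option.some.inj hab
      subst hb
      refine ⟨by simp, ?_⟩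
      rw [mt2 hs, if_pos g1]
    · rw [if_neg g1] at hab
      by_cases g2 : t (nx s) = true
      · rw [if_pos g2] at hab
        have hb := Option.some.inj hab
        subst hb
        refine ⟨by simp, ?_⟩
        rw [mt3 h2, e1, if_pos g2, sc_pd h1, pv_nx]
      · rw [if_neg g2] at hab
        have hb := Option.some.inj hab
        subst hb
        refine ⟨by simp, ?_⟩
        rw [mt0 h1, pv_nx, if_neg g2, if_neg g1]
  · rw [pl2 hs]
    rw [mt2 hs] at hab
    by_cases g1 : t s = true
    · rw [if_pos g1] at hab
      have hb := Option.some.inj hab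
      subst hb
      refine ⟨by simp, ?_⟩
      rw [mt1 hs, if_pos g1]
    · rw [if_neg g1] at hab
      have hb := Option.some.inj hab
      subst hb
      refine ⟨by simp, ?_⟩
      rw [mt3 hs, if_neg g1]
  · have h1 := sc_lt hs
    have h2 := pv_lt h1
    have e1 := ht s hs
    have c1 := hc _ h1
    unfold Ex1 at c1
    rw [pl3 hs]
    rw [mt3 hs] at hab
    by_cases g1 : t s = true
    · rw [if_pos g1] at hab
      have hb := Option.some.inj hab
      subst hb
      refine ⟨by simp, ?_⟩
      rw [mt1 h2, nx_pv, pd_sc hs, if_neg (by simp_all), if_pos (by simp_all)]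
    · rw [if_neg g1] at hab
      have hb := Option.some.inj hab
      subst hb
      refine ⟨by simp, ?_⟩
      rw [mt2 hs, if_neg g1]

omit hc ht in
/-- the rank of an agent -/
def rk (t : ℕ → Bool) (z : ℕ) : ℕ :=
  if z % 4 = 0 then if t (z / 4) = true then 0 else if t (pv (z / 4)) = true then 2 else 1
  else if z % 4 = 1 then if t (z / 4) = true then 0 else 1
  else if z % 4 = 2 then if t (z / 4) = true then 1 else 0
  else if t (z / 4) = true then 0 else 2

omit hc ht in
theorem rk0 {s : ℕ} : rk t (4 * s) = if t s = true then 0 else if t (pv s) = true then 2 else 1 := by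
  have e1 : 4 * s % 4 = 0 := by omega
  have e2 : 4 * s / 4 = s := by omega
  simp only [rk, e1, e2, if_true]

omit hc ht in
theorem rk1 {s : ℕ} : rk t (4 * s + 1) = if t s = true then 0 else 1 := by
  have e1 : (4 * s + 1) % 4 = 1 := by omega
  have e2 : (4 * s + 1) / 4 = s := by omega
  unfold rk
  rw [if_neg (by omega), if_pos e1, e2]

omit hc ht in
theorem rk2 {s : ℕ} : rk t (4 * s + 2) = if t s = true then 1 else 0 := by
  have e1 : (4 * s + 2) % 4 = 2 := by omega
  have e2 : (4 * s + 2) / 4 = s := by omega
  unfold rk
  rw [if_neg (by omega), if_neg (by omega), if_pos e1, e2]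

omit hc ht in
theorem rk3 {s : ℕ} : rk t (4 * s + 3) = if t s = true then 0 else 2 := by
  have e1 : (4 * s + 3) % 4 = 3 := by omega
  have e2 : (4 * s + 3) / 4 = s := by omega
  unfold rk
  rw [if_neg (by omega), if_neg (by omega), if_neg (by omega), e2]

omit hc ht in
theorem likes_lt {I : Prefs} {M : ℕ → Option ℕ} {a b c : ℕ} (h : Likes I M a b)
    (hc : M a = some c) : (plist I a).idxOf b < (plist I a).idxOf c := h.2 c hc

theorem rk_lt {a b : ℕ} (hab : Likes (inst ψ) (mt ψ t) a b) : rk t b < rk t a := by
  have ha : a < 4 * (3 * ψ.length) := by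
    by_contra h
    have hb := hab.1
    unfold plist at hb
    rw [List.getD_eq_default _ _ (by rw [inst_length]; omega)] at hb
    simp at hb
  have hb := hab.1
  obtain ⟨s, hs, rfl | rfl | rfl | rfl⟩ := kinds a ha
  · have h1 := nx_lt hs
    have h2 := pv_lt hs
    have c0 := hc s hs
    have n1 := nx_ne_pv s
    unfold Ex1 at c0
    have hm := mt0 (t := t) hs
    rw [pl0 hs] at hb
    simp only [List.mem_cons, List.not_mem_nil, or_false] at hb
    by_cases g1 : t s = true
    · rw [if_pos g1] at hm
      have h3 := likes_lt hab hm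
      rw [pl0 hs, idx0] at h3
      omega
    · rw [if_neg g1] at hm
      by_cases g2 : t (pv s) = true
      · rw [if_pos g2] at hm
        have h3 := likes_lt hab hm
        rw [pl0 hs, idx2 (by omega) (by omega)] at h3
        rw [rk0, if_neg g1, if_pos g2]
        rcases hb with rfl | rfl | rfl
        · rw [rk0, pv_nx]
          simp_all
        · rw [rk1, if_pos g2]; omega
        · rw [idx2 (by omega) (by omega)] at h3; omega
      · rw [if_neg g2] at hm
        have h3 := likes_lt hab hm
        rw [pl0 hs, idx1 (by omega)] at h3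
        rw [rk0, if_neg g1, if_neg g2]
        rcases hb with rfl | rfl | rfl
        · rw [rk0, pv_nx]
          simp_all
        · rw [idx1 (by omega)] at h3; omega
        · rw [idx2 (by omega) (by omega)] at h3; omega
  · have h1 := nx_lt hs
    have c0 := hc s hs
    unfold Ex1 at c0
    have hm := mt1 (t := t) hs
    rw [pl1 hs] at hb
    simp only [List.mem_cons, List.not_mem_nil, or_false] at hb
    by_cases g1 : t s = true
    · rw [if_pos g1] at hm
      have h3 := likes_lt hab hm
      rw [pl1 hs, idx0] at h3
      omega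
    · rw [if_neg g1] at hm
      by_cases g2 : t (nx s) = true
      · rw [if_pos g2] at hm
        have h3 := likes_lt hab hm
        rw [pl1 hs, idx2 (by omega) (by omega)] at h3
        rw [rk1, if_neg g1]
        rcases hb with rfl | rfl | rfl
        · rw [rk2, if_neg g1]; omega
        · rw [rk0, if_pos g2]; omega
        · rw [idx2 (by omega) (by omega)] at h3; omega
      · rw [if_neg g2] at hm
        have h3 := likes_lt hab hm
        rw [pl1 hs, idx1 (by omega)] at h3
        rw [rk1, if_neg g1]
        rcases hb with rfl | rfl | rfl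
        · rw [rk2, if_neg g1]; omega
        · rw [idx1 (by omega)] at h3; omega
        · rw [idx2 (by omega) (by omega)] at h3; omega
  · have hm := mt2 (t := t) hs
    rw [pl2 hs] at hb
    simp only [List.mem_cons, List.not_mem_nil, or_false] at hb
    by_cases g1 : t s = true
    · rw [if_pos g1] at hm
      have h3 := likes_lt hab hm
      rw [pl2 hs, idy1 (by omega)] at h3
      rw [rk2, if_pos g1]
      rcases hb with rfl | rfl
      · rw [rk3, if_pos g1]; omega
      · rw [idy1 (by omega)] at h3; omega
    · rw [if_neg g1] at hm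
      have h3 := likes_lt hab hm
      rw [pl2 hs, idy0] at h3
      omega
  · have hm := mt3 (t := t) hs
    have h1 := sc_lt hs
    have e1 := ht s hs
    rw [pl3 hs] at hb
    simp only [List.mem_cons, List.not_mem_nil, or_false] at hb
    by_cases g1 : t s = true
    · rw [if_pos g1] at hm
      have h3 := likes_lt hab hm
      rw [pl3 hs, idy0] at h3
      omega
    · rw [if_neg g1] at hm
      have h3 := likes_lt hab hm
      rw [pl3 hs, idy1 (by omega)] at h3
      rw [rk3, if_neg g1]
      rcases hb with rfl | rfl
      · rw [rk1]; split_ifs <;> omega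
      · rw [idy1 (by omega)] at h3; omega

end

theorem complete {ψ : P3} (h : One3 ψ) : ∃ M, CycleStable (inst ψ) M := by
  obtain ⟨τ, hτ⟩ := h
  have hc : ∀ s < 3 * ψ.length, Ex1 (τ (va ψ s)) (τ (va ψ (nx s))) (τ (va ψ (pv s))) := by
    intro s hs
    have hj : s / 3 < ψ.length := by omega
    have h0 := hτ ψ[s / 3] (List.getElem_mem hj)
    have en : nx s / 3 = s / 3 := by unfold nx; omega
    have ep : pv s / 3 = s / 3 := by unfold pv; omega
    have em : s % 3 = 0 ∨ s % 3 = 1 ∨ s % 3 = 2 := by omega
    have hg : ψ.getD (s / 3) (0, 0, 0) = ψ[s / 3] := by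
      rw [List.getD_eq_getElem _ _ hj]
    unfold Ex1 at h0 ⊢
    rcases em with em | em | em
    · have e1 : nx s % 3 = 1 := by unfold nx; omega
      have e2 : pv s % 3 = 2 := by unfold pv; omega
      simp only [va, em, e1, e2, en, ep, hg]
      simpa using h0
    · have e1 : nx s % 3 = 2 := by unfold nx; omega
      have e2 : pv s % 3 = 0 := by unfold pv; omega
      simp only [va, em, e1, e2, en, ep, hg]
      norm_num
      tauto
    · have e1 : nx s % 3 = 0 := by unfold nx; omega
      have e2 : pv s % 3 = 1 := by unfold pv; omega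
      simp only [va, em, e1, e2, en, ep, hg]
      norm_num
      tauto
  have ht : ∀ s < 3 * ψ.length, τ (va ψ (sc ψ s)) = τ (va ψ s) := fun s hs => by rw [va_sc hs]
  refine ⟨mt ψ fun s => τ (va ψ s), isMatching (t := fun s => τ (va ψ s)) hc ht, ?_⟩
  rintro l ⟨h1, -, h3⟩
  exact no_cycle (R := Likes (inst ψ) (mt ψ fun s => τ (va ψ s))) (P := fun _ => True)
    (rk fun s => τ (va ψ s)) (fun a b _ _ hab => rk_lt (t := fun s => τ (va ψ s)) hc ht hab) l h1
    (fun _ _ => trivial) h3

end Pool.Agent.V11231.CSR
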