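import Mathlib

/-!
# Cycle stable roommates matchings: definitions
-/

set_option autoImplicit false

namespace Pool.Agent.V11231.CSR

/-- Preference lists. The agents are `0, …, I.length - 1`; the entry with number `a` is the list of
the agents which are acceptable to `a`, the best first. -/
abbrev Prefs : Type := List (List ℕ)

/-- The preference list of an agent. -/
def plist (I : Prefs) (a : ℕ) : List ℕ := I.getD a []

/-- `I` is an instance of the stable roommates problem with incomplete lists: no agent occurs twice
on a list, no agent finds itself acceptable, and acceptability is mutual. -/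
def IsInst (I : Prefs) : Prop :=
  (∀ l ∈ I, l.Nodup) ∧ ∀ a b, b ∈ plist I a → b < I.length ∧ b ≠ a ∧ a ∈ plist I b

/-- A matching of mutually acceptable agents: `M a = some b` if `b` is the partner of `a`, and
`M a = none` if `a` is unassigned. -/
def IsMatching (I : Prefs) (M : ℕ → Option ℕ) : Prop :=
  ∀ a b, M a = some b → b ∈ plist I a ∧ M b = some a

/-- The agent `a` finds `b` acceptable, and it is unassigned or prefers `b` to its partner. -/
def Likes (I : Prefs) (M : ℕ → Option ℕ) (a b : ℕ) : Prop :=
  b ∈ plist I a ∧ ∀ c, M a = some c → (plist I a).idxOf b < (plist I a).idxOf c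

/-- A blocking cycle of `M`: a sequence of `k ≥ 2` distinct agents, each of which is unassigned and
finds the next one (cyclically) acceptable, or prefers the next one to its partner. -/
def BlockingCycle (I : Prefs) (M : ℕ → Option ℕ) (l : List ℕ) : Prop :=
  2 ≤ l.length ∧ l.Nodup ∧ ∀ (i a b : ℕ), l[i]? = some a → l[(i + 1) % l.length]? = some b →
    Likes I M a b

/-- `M` is a cycle stable matching. -/
def CycleStable (I : Prefs) (M : ℕ → Option ℕ) : Prop :=
  IsMatching I M ∧ ∀ l, ¬ BlockingCycle I M l

/-- `M` is a `k`-cycle stable matching: it has no blocking cycle of length at most `k`. -/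
def KCycleStable (k : ℕ) (I : Prefs) (M : ℕ → Option ℕ) : Prop :=
  IsMatching I M ∧ ∀ l, l.length ≤ k → ¬ BlockingCycle I M l

/-- The decision problem `CS(L)`: `I` is an instance in which the preference lists have at most `L`
entries, and it has a cycle stable matching. -/
def CS (L : ℕ) (I : Prefs) : Prop :=
  IsInst I ∧ (∀ l ∈ I, l.length ≤ L) ∧ ∃ M, CycleStable I M

/-- The decision problem `CS_k(L)`: `I` is an instance in which the preference lists have at most
`L` entries, and it has a `k`-cycle stable matching. -/
def CSk (k L : ℕ) (I : Prefs) : Prop :=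
  IsInst I ∧ (∀ l ∈ I, l.length ≤ L) ∧ ∃ M, KCycleStable k I M

/-! ### Generalities -/

theorem CycleStable.k {I : Prefs} {M : ℕ → Option ℕ} (h : CycleStable I M) (k : ℕ) :
    KCycleStable k I M := ⟨h.1, fun l _ => h.2 l⟩

theorem no_pair {k : ℕ} {I : Prefs} {M : ℕ → Option ℕ} (h : KCycleStable k I M) (hk : 2 ≤ k)
    {a b : ℕ} (hab : a ≠ b) (h1 : Likes I M a b) (h2 : Likes I M b a) : False := by
  refine h.2 [a, b] (by simpa using hk) ⟨by simp, by simpa using hab, ?_⟩
  intro i x y hx hy
  have hi : i < 2 := by
    have := List.getElem?_eq_some_iff.1 hx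
    obtain ⟨h, _⟩ := this
    simpa using h
  interval_cases i <;> simp at hx hy <;> subst hx <;> subst hy <;> assumption

theorem no_triple {k : ℕ} {I : Prefs} {M : ℕ → Option ℕ} (h : KCycleStable k I M) (hk : 3 ≤ k)
    {a b c : ℕ} (hn : [a, b, c].Nodup) (h1 : Likes I M a b) (h2 : Likes I M b c)
    (h3 : Likes I M c a) : False := by
  refine h.2 [a, b, c] (by simpa using hk) ⟨by simp, hn, ?_⟩
  intro i x y hx hy
  have hi : i < 3 := by
    have := List.getElem?_eq_some_iff.1 hx
    obtain ⟨h, _⟩ := this
    simpa using h
  interval_cases i <;> simp at hx hy <;> subst hx <;> subst hy <;> assumption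

theorem no_six {k : ℕ} {I : Prefs} {M : ℕ → Option ℕ} (h : KCycleStable k I M) (hk : 6 ≤ k)
    {a b c d e f : ℕ} (hn : [a, b, c, d, e, f].Nodup) (h1 : Likes I M a b) (h2 : Likes I M b c)
    (h3 : Likes I M c d) (h4 : Likes I M d e) (h5 : Likes I M e f) (h6 : Likes I M f a) :
    False := by
  refine h.2 [a, b, c, d, e, f] (by simpa using hk) ⟨by simp, hn, ?_⟩
  intro i x y hx hy
  have hi : i < 6 := by
    have := List.getElem?_eq_some_iff.1 hx
    obtain ⟨h, _⟩ := this
    simpa using h
  interval_cases i <;> simp at hx hy <;> subst hx <;> subst hy <;> assumption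

/-- Rings with cyclic preferences and chords are matched along the rings. -/
theorem forced {k : ℕ} {I : Prefs} {M : ℕ → Option ℕ} (h : KCycleStable k I M) (hk : 2 ≤ k)
    {n : ℕ} {nxt prv : ℕ → ℕ} (hp : ∀ a < n, prv a < n) (hnp : ∀ a < n, nxt (prv a) = a)
    (hne : ∀ a < n, prv a ≠ a)
    (hmem : ∀ a < n, prv a ∈ plist I a ∧ nxt a ∈ plist I a ∧
      (plist I a).idxOf (nxt a) < (plist I a).idxOf (prv a))
    (hch : ∀ a < n, ∀ c ∈ plist I a, c ≠ nxt a → c ≠ prv a →
      ∃ x y, x < n ∧ ((x = a ∧ y = c) ∨ (x = c ∧ y = a)) ∧
        (plist I x).idxOf (prv x) < (plist I x).idxOf y ∧ (plist I (prv x)).idxOf x = 0) :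
    ∀ a < n, M a = some (nxt a) ∨ M a = some (prv a) := by
  have hM := h.1
  -- no chords
  have key : ∀ a < n, ∀ c, M a = some c → c = nxt a ∨ c = prv a := by
    intro a ha c hc
    by_contra hno
    push Not at hno
    obtain ⟨x, y, hx, hxy, h1, h2⟩ := hch a ha c (hM a c hc).1 hno.1 hno.2
    have hMx : M x = some y := by
      rcases hxy with ⟨rfl, rfl⟩ | ⟨rfl, rfl⟩
      · exact hc
      · exact (hM _ _ hc).2
    have hpx := hp x hx
    refine no_pair h hk (hne x hx).symm ⟨(hmem x hx).1, ?_⟩ ⟨?_, ?_⟩
    · intro z hz
      rw [hMx] at hz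
      rw [← Option.some.inj hz]
      exact h1
    · have := (hmem _ hpx).2.1
      rwa [hnp x hx] at this
    · intro z hz
      rw [h2]
      by_contra h3
      have h4 : (plist I (prv x)).idxOf z = 0 := by omega
      have hz' := (hM _ _ hz).1
      have hx' : x ∈ plist I (prv x) := by
        have := (hmem _ hpx).2.1
        rwa [hnp x hx] at this
      have h5 : z = x := (List.idxOf_inj hz').1 (by rw [h4, h2])
      subst h5
      have := (hM _ _ hz).2
      rw [hMx] at this
      have h6 := Option.some.inj this
      subst h6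
      omega
  intro a ha
  cases hMa : M a with
  | some c =>
    rcases key a ha c hMa with rfl | rfl
    · exact Or.inl rfl
    · exact Or.inr rfl
  | none =>
    exfalso
    have hpa := hp a ha
    refine no_pair h hk (hne a ha).symm ⟨(hmem a ha).1, ?_⟩ ⟨?_, ?_⟩
    · intro z hz
      rw [hMa] at hz
      exact absurd hz (by simp)
    · have := (hmem _ hpa).2.1
      rwa [hnp a ha] at this
    · intro z hz
      have h1 := (hmem _ hpa).2.2
      rw [hnp a ha] at h1
      rcases key _ hpa z hz with h2 | h2
      · rw [hnp a ha] at h2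
        subst h2
        have := (hM _ _ hz).2
        rw [hMa] at this
        exact absurd this (by simp)
      · rw [h2]
        exact h1

end Pool.Agent.V11231.CSR
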