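import Pool.Agent.V11231.CSR.One3
import Pool.Agent.V11231.CSR.Defs

/-!
# Cycle stable roommates matchings: the gadget
-/

set_option autoImplicit false

namespace Pool.Agent.V11231.CSR

/-- the next position in the clause -/
def nx (i : ℕ) : ℕ := 3 * (i / 3) + (i + 1) % 3

/-- the previous position in the clause -/
def pv (i : ℕ) : ℕ := 3 * (i / 3) + (i + 2) % 3

theorem pv_nx (i : ℕ) : pv (nx i) = i := by unfold nx pv; omega
theorem nx_pv (i : ℕ) : nx (pv i) = i := by unfold nx pv; omega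
theorem nx_nx (i : ℕ) : nx (nx i) = pv i := by unfold nx pv; omega
theorem pv_pv (i : ℕ) : pv (pv i) = nx i := by unfold nx pv; omega
theorem nx_ne (i : ℕ) : nx i ≠ i := by unfold nx; omega
theorem pv_ne (i : ℕ) : pv i ≠ i := by unfold pv; omega
theorem nx_ne_pv (i : ℕ) : nx i ≠ pv i := by unfold nx pv; omega
theorem nx_lt {i n : ℕ} (hi : i < 3 * n) : nx i < 3 * n := by unfold nx; omega
theorem pv_lt {i n : ℕ} (hi : i < 3 * n) : pv i < 3 * n := by unfold pv; omega

/-- the variable at a position -/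
def va (ψ : P3) (i : ℕ) : ℕ :=
  if i % 3 = 0 then (ψ.getD (i / 3) (0, 0, 0)).1
  else if i % 3 = 1 then (ψ.getD (i / 3) (0, 0, 0)).2.1
  else (ψ.getD (i / 3) (0, 0, 0)).2.2

/-- the occurrences of the variable at a position -/
def occ (ψ : P3) (i : ℕ) : List ℕ :=
  (List.range (3 * ψ.length)).filter fun j => decide (va ψ j = va ψ i)

/-- the element `k` steps after `i` in a cyclic list -/
def cyc (l : List ℕ) (k i : ℕ) : ℕ := l.getD ((l.idxOf i + k) % l.length) 0

theorem cyc_mem {l : List ℕ} (k : ℕ) {i : ℕ} (hi : i ∈ l) : cyc l k i ∈ l := by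
  have h : 0 < l.length := List.length_pos_of_mem hi
  unfold cyc
  rw [List.getD_eq_getElem _ _ (Nat.mod_lt _ h)]
  exact List.getElem_mem _

theorem idxOf_cyc {l : List ℕ} (hl : l.Nodup) (k : ℕ) {i : ℕ} (hi : i ∈ l) :
    l.idxOf (cyc l k i) = (l.idxOf i + k) % l.length := by
  have h : 0 < l.length := List.length_pos_of_mem hi
  unfold cyc
  rw [List.getD_eq_getElem _ _ (Nat.mod_lt _ h)]
  exact hl.idxOf_getElem _ _

theorem cyc_cyc {l : List ℕ} (hl : l.Nodup) (k m : ℕ) {i : ℕ} (hi : i ∈ l) :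
    cyc l m (cyc l k i) = cyc l (k + m) i := by
  show l.getD ((l.idxOf (cyc l k i) + m) % l.length) 0 = _
  rw [idxOf_cyc hl k hi, Nat.mod_add_mod]
  unfold cyc
  rw [Nat.add_assoc]

theorem cyc_length {l : List ℕ} {i : ℕ} (hi : i ∈ l) : cyc l l.length i = i := by
  unfold cyc
  have h := List.idxOf_lt_length_iff.2 hi
  rw [Nat.add_mod_right, Nat.mod_eq_of_lt h, List.getD_eq_getElem _ _ h]
  exact List.getElem_idxOf _

/-- the next occurrence of the variable -/
def sc (ψ : P3) (i : ℕ) : ℕ := cyc (occ ψ i) 1 i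

/-- the previous occurrence of the variable -/
def pd (ψ : P3) (i : ℕ) : ℕ := cyc (occ ψ i) ((occ ψ i).length - 1) i

section

variable {ψ : P3} {i : ℕ}

theorem mem_occ {j : ℕ} : j ∈ occ ψ i ↔ j < 3 * ψ.length ∧ va ψ j = va ψ i := by
  simp [occ]

theorem occ_nodup : (occ ψ i).Nodup := List.nodup_range.filter _

theorem occ_congr {j : ℕ} (h : va ψ j = va ψ i) : occ ψ j = occ ψ i := by
  unfold occ
  rw [h]

theorem sc_lt (hi : i < 3 * ψ.length) : sc ψ i < 3 * ψ.length :=
  (mem_occ.1 (cyc_mem 1 (mem_occ.2 ⟨hi, rfl⟩))).1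

theorem va_sc (hi : i < 3 * ψ.length) : va ψ (sc ψ i) = va ψ i :=
  (mem_occ.1 (cyc_mem 1 (mem_occ.2 ⟨hi, rfl⟩))).2

theorem pd_lt (hi : i < 3 * ψ.length) : pd ψ i < 3 * ψ.length :=
  (mem_occ.1 (cyc_mem _ (mem_occ.2 ⟨hi, rfl⟩))).1

theorem va_pd (hi : i < 3 * ψ.length) : va ψ (pd ψ i) = va ψ i :=
  (mem_occ.1 (cyc_mem _ (mem_occ.2 ⟨hi, rfl⟩))).2

theorem pd_sc (hi : i < 3 * ψ.length) : pd ψ (sc ψ i) = i := by
  have hm : i ∈ occ ψ i := mem_occ.2 ⟨hi, rfl⟩
  have h : 0 < (occ ψ i).length := List.length_pos_of_mem hm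
  unfold pd
  rw [occ_congr (va_sc hi)]
  unfold sc
  rw [cyc_cyc occ_nodup _ _ hm, Nat.add_sub_cancel' h, cyc_length hm]

theorem sc_pd (hi : i < 3 * ψ.length) : sc ψ (pd ψ i) = i := by
  have hm : i ∈ occ ψ i := mem_occ.2 ⟨hi, rfl⟩
  have h : 0 < (occ ψ i).length := List.length_pos_of_mem hm
  unfold sc
  rw [occ_congr (va_pd hi)]
  unfold pd
  rw [cyc_cyc occ_nodup _ _ hm, Nat.sub_add_cancel h, cyc_length hm]

theorem const_of_sc {P : ℕ → Prop} (h : ∀ i < 3 * ψ.length, (P (sc ψ i) ↔ P i)) {j : ℕ}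
    (hi : i < 3 * ψ.length) (hj : j < 3 * ψ.length) (hv : va ψ j = va ψ i) : P i ↔ P j := by
  have hm : i ∈ occ ψ i := mem_occ.2 ⟨hi, rfl⟩
  have hm' : j ∈ occ ψ i := mem_occ.2 ⟨hj, hv⟩
  have h0 : 0 < (occ ψ i).length := List.length_pos_of_mem hm
  have key : ∀ k, P (cyc (occ ψ i) k i) ↔ P i := by
    intro k
    induction k with
    | zero =>
      have : cyc (occ ψ i) 0 i = i := by
        unfold cyc
        have h := List.idxOf_lt_length_iff.2 hm
        rw [Nat.add_zero, Nat.mod_eq_of_lt h, List.getD_eq_getElem _ _ h]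
        exact List.getElem_idxOf _
      rw [this]
    | succ k ih =>
      rw [← ih, ← cyc_cyc occ_nodup k 1 hm]
      have h1 := mem_occ.1 (cyc_mem k hm)
      have h2 := h _ h1.1
      unfold sc at h2
      rwa [occ_congr h1.2] at h2
  have h1 : ∃ k, cyc (occ ψ i) k i = j := by
    refine ⟨(occ ψ i).idxOf j + ((occ ψ i).length - (occ ψ i).idxOf i), ?_⟩
    have hi' := List.idxOf_lt_length_iff.2 hm
    have hj' := List.idxOf_lt_length_iff.2 hm'
    unfold cyc
    have : ((occ ψ i).idxOf i + ((occ ψ i).idxOf j + ((occ ψ i).length - (occ ψ i).idxOf i))) =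
      (occ ψ i).idxOf j + (occ ψ i).length := by omega
    rw [this, Nat.add_mod_right, Nat.mod_eq_of_lt hj', List.getD_eq_getElem _ _ hj']
    exact List.getElem_idxOf _
  obtain ⟨k, rfl⟩ := h1
  exact (key k).symm

end

/-- the preference list of the agent `z` -/
def ent (ψ : P3) (z : ℕ) : List ℕ :=
  if z % 4 = 0 then [4 * nx (z / 4), 4 * pv (z / 4) + 1, 4 * pv (z / 4)]
  else if z % 4 = 1 then [z + 1, 4 * nx (z / 4), 4 * pd ψ (nx (z / 4)) + 3]
  else if z % 4 = 2 then [z + 1, z - 1]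
  else [4 * pv (sc ψ (z / 4)) + 1, z - 1]

/-- the instance -/
def inst (ψ : P3) : Prefs := (List.range (4 * (3 * ψ.length))).map (ent ψ)

section

variable {ψ : P3} {s : ℕ}

theorem ent0 : ent ψ (4 * s) = [4 * nx s, 4 * pv s + 1, 4 * pv s] := by
  have e1 : 4 * s % 4 = 0 := by omega
  have e2 : 4 * s / 4 = s := by omega
  simp only [ent, e1, e2, if_true]

theorem ent1 : ent ψ (4 * s + 1) = [4 * s + 2, 4 * nx s, 4 * pd ψ (nx s) + 3] := by
  have e1 : (4 * s + 1) % 4 = 1 := by omega
  have e2 : (4 * s + 1) / 4 = s := by omega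
  simp [ent, e1, e2]

theorem ent2 : ent ψ (4 * s + 2) = [4 * s + 3, 4 * s + 1] := by
  have e1 : (4 * s + 2) % 4 = 2 := by omega
  have e2 : (4 * s + 2) / 4 = s := by omega
  simp [ent, e1]

theorem ent3 : ent ψ (4 * s + 3) = [4 * pv (sc ψ s) + 1, 4 * s + 2] := by
  have e1 : (4 * s + 3) % 4 = 3 := by omega
  have e2 : (4 * s + 3) / 4 = s := by omega
  simp [ent, e1, e2]

theorem inst_length : (inst ψ).length = 4 * (3 * ψ.length) := by simp [inst]

theorem plist_inst {z : ℕ} (hz : z < 4 * (3 * ψ.length)) : plist (inst ψ) z = ent ψ z := by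
  unfold plist inst
  rw [List.getD_eq_getElem _ _ (by simpa using hz)]
  simp

theorem pl0 (hs : s < 3 * ψ.length) : plist (inst ψ) (4 * s) =
    [4 * nx s, 4 * pv s + 1, 4 * pv s] := by
  rw [plist_inst (by omega), ent0]

theorem pl1 (hs : s < 3 * ψ.length) : plist (inst ψ) (4 * s + 1) =
    [4 * s + 2, 4 * nx s, 4 * pd ψ (nx s) + 3] := by
  rw [plist_inst (by omega), ent1]

theorem pl2 (hs : s < 3 * ψ.length) : plist (inst ψ) (4 * s + 2) =
    [4 * s + 3, 4 * s + 1] := by
  rw [plist_inst (by omega), ent2]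

theorem pl3 (hs : s < 3 * ψ.length) : plist (inst ψ) (4 * s + 3) =
    [4 * pv (sc ψ s) + 1, 4 * s + 2] := by
  rw [plist_inst (by omega), ent3]

theorem idx0 {x y z : ℕ} : [x, y, z].idxOf x = 0 := by simp
theorem idx1 {x y z : ℕ} (h : x ≠ y) : [x, y, z].idxOf y = 1 := by
  simp [List.idxOf_cons, h]
theorem idx2 {x y z : ℕ} (h : x ≠ z) (h' : y ≠ z) : [x, y, z].idxOf z = 2 := by
  simp [List.idxOf_cons, h, h']
theorem idy0 {x y : ℕ} : [x, y].idxOf x = 0 := by simp
theorem idy1 {x y : ℕ} (h : x ≠ y) : [x, y].idxOf y = 1 := by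
  simp [List.idxOf_cons, h]

/-- the four kinds of agents -/
theorem kinds (z : ℕ) (hz : z < 4 * (3 * ψ.length)) : ∃ s < 3 * ψ.length,
    z = 4 * s ∨ z = 4 * s + 1 ∨ z = 4 * s + 2 ∨ z = 4 * s + 3 :=
  ⟨z / 4, by omega, by omega⟩

theorem isInst : IsInst (inst ψ) := by
  constructor
  · intro l hl
    rw [inst, List.mem_map] at hl
    obtain ⟨z, hz, rfl⟩ := hl
    obtain ⟨s, hs, rfl | rfl | rfl | rfl⟩ := kinds z (List.mem_range.1 hz)
    · have := nx_ne_pv s
      rw [ent0]; simp; omega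
    · rw [ent1]; simp; omega
    · rw [ent2]; simp
    · rw [ent3]; simp; omega
  · intro a b hb
    have ha : a < 4 * (3 * ψ.length) := by
      by_contra h
      unfold plist at hb
      rw [List.getD_eq_default _ _ (by rw [inst_length]; omega)] at hb
      simp at hb
    rw [inst_length]
    obtain ⟨s, hs, rfl | rfl | rfl | rfl⟩ := kinds a ha
    · rw [pl0 hs] at hb
      have h1 := nx_lt hs
      have h2 := pv_lt hs
      have h3 := nx_ne s
      have h4 := pv_ne s
      simp only [List.mem_cons, List.not_mem_nil, or_false] at hb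
      rcases hb with rfl | rfl | rfl
      · refine ⟨by omega, by omega, ?_⟩
        rw [pl0 h1, pv_nx]; simp
      · refine ⟨by omega, by omega, ?_⟩
        rw [pl1 h2, nx_pv]; simp
      · refine ⟨by omega, by omega, ?_⟩
        rw [pl0 h2, nx_pv]; simp
    · rw [pl1 hs] at hb
      have h1 := nx_lt hs
      have h2 := pd_lt h1
      simp only [List.mem_cons, List.not_mem_nil, or_false] at hb
      rcases hb with rfl | rfl | rfl
      · refine ⟨by omega, by omega, ?_⟩
        rw [pl2 hs]; simp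
      · refine ⟨by omega, by omega, ?_⟩
        rw [pl0 h1, pv_nx]; simp
      · refine ⟨by omega, by omega, ?_⟩
        rw [pl3 h2, sc_pd h1, pv_nx]; simp
    · rw [pl2 hs] at hb
      simp only [List.mem_cons, List.not_mem_nil, or_false] at hb
      rcases hb with rfl | rfl
      · refine ⟨by omega, by omega, ?_⟩
        rw [pl3 hs]; simp
      · refine ⟨by omega, by omega, ?_⟩
        rw [pl1 hs]; simp
    · rw [pl3 hs] at hb
      have h1 := sc_lt hs
      have h2 := pv_lt h1
      simp only [List.mem_cons, List.not_mem_nil, or_false] at hb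
      rcases hb with rfl | rfl
      · refine ⟨by omega, by omega, ?_⟩
        rw [pl1 h2, nx_pv, pd_sc hs]; simp
      · refine ⟨by omega, by omega, ?_⟩
        rw [pl2 hs]; simp

theorem inst_three : ∀ l ∈ inst ψ, l.length ≤ 3 := by
  intro l hl
  rw [inst, List.mem_map] at hl
  obtain ⟨z, hz, rfl⟩ := hl
  obtain ⟨s, hs, rfl | rfl | rfl | rfl⟩ := kinds z (List.mem_range.1 hz)
  · rw [ent0]; simp
  · rw [ent1]; simp
  · rw [ent2]; simp
  · rw [ent3]; simp

end

/-! ### Soundness -/

section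

variable {ψ : P3} {M : ℕ → Option ℕ} {k : ℕ}

theorem likes_of {I : Prefs} {a b c : ℕ} (hb : b ∈ plist I a) (hc : M a = some c)
    (h : (plist I a).idxOf b < (plist I a).idxOf c) : Likes I M a b :=
  ⟨hb, fun d hd => by rw [hc] at hd; rw [← Option.some.inj hd]; exact h⟩

theorem matched {I : Prefs} (h : KCycleStable k I M) (hk : 2 ≤ k) {z w : ℕ}
    (h1 : (plist I w).idxOf z = 0) (hz : z ∈ plist I w) (hw : w ∈ plist I z) (hne : z ≠ w) :
    M z ≠ none := by
  intro h0
  refine no_pair h hk hne ⟨hw, fun c hc => ?_⟩ ⟨hz, fun c hc => ?_⟩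
  · rw [h0] at hc; simp at hc
  · rw [h1]
    have hcm := h.1 _ _ hc
    by_contra h3
    have h4 : (plist I w).idxOf c = 0 := by omega
    have h5 : c = z := (List.idxOf_inj hcm.1).1 (by rw [h4, h1])
    subst h5
    rw [hcm.2] at h0
    simp at h0

variable (h : KCycleStable k (inst ψ) M) (hk : 2 ≤ k)

include h in
theorem symm_iff {a b : ℕ} : M a = some b ↔ M b = some a :=
  ⟨fun h1 => (h.1 _ _ h1).2, fun h1 => (h.1 _ _ h1).2⟩

include h hk

theorem st0 {s : ℕ} (hs : s < 3 * ψ.length) : M (4 * s) = some (4 * nx s) ∨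
    M (4 * s) = some (4 * pv s + 1) ∨ M (4 * s) = some (4 * pv s) := by
  have h2 := pv_lt hs
  have h4 := pv_ne s
  cases hm : M (4 * s) with
  | none =>
    exfalso
    refine matched h hk (z := 4 * s) (w := 4 * pv s) ?_ ?_ ?_ (by omega) hm
    · rw [pl0 h2, nx_pv]; exact idx0
    · rw [pl0 h2, nx_pv]; simp
    · rw [pl0 hs]; simp
  | some c =>
    have := (h.1 _ _ hm).1
    rw [pl0 hs] at this
    simpa using this

theorem st1 {s : ℕ} (hs : s < 3 * ψ.length) : M (4 * s + 1) = some (4 * s + 2) ∨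
    M (4 * s + 1) = some (4 * nx s) ∨ M (4 * s + 1) = some (4 * pd ψ (nx s) + 3) := by
  have h1 := nx_lt hs
  have h2 := pd_lt h1
  cases hm : M (4 * s + 1) with
  | none =>
    exfalso
    refine matched h hk (z := 4 * s + 1) (w := 4 * pd ψ (nx s) + 3) ?_ ?_ ?_ (by omega) hm
    · rw [pl3 h2, sc_pd h1, pv_nx]; exact idy0
    · rw [pl3 h2, sc_pd h1, pv_nx]; simp
    · rw [pl1 hs]; simp
  | some c =>
    have := (h.1 _ _ hm).1
    rw [pl1 hs] at this
    simpa using this

theorem st2 {s : ℕ} (hs : s < 3 * ψ.length) : M (4 * s + 2) = some (4 * s + 3) ∨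
    M (4 * s + 2) = some (4 * s + 1) := by
  cases hm : M (4 * s + 2) with
  | none =>
    exfalso
    refine matched h hk (z := 4 * s + 2) (w := 4 * s + 1) ?_ ?_ ?_ (by omega) hm
    · rw [pl1 hs]; exact idx0
    · rw [pl1 hs]; simp
    · rw [pl2 hs]; simp
  | some c =>
    have := (h.1 _ _ hm).1
    rw [pl2 hs] at this
    simpa using this

theorem st3 {s : ℕ} (hs : s < 3 * ψ.length) : M (4 * s + 3) = some (4 * pv (sc ψ s) + 1) ∨
    M (4 * s + 3) = some (4 * s + 2) := by
  cases hm : M (4 * s + 3) with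
  | none =>
    exfalso
    refine matched h hk (z := 4 * s + 3) (w := 4 * s + 2) ?_ ?_ ?_ (by omega) hm
    · rw [pl2 hs]; exact idy0
    · rw [pl2 hs]; simp
    · rw [pl3 hs]; simp
  | some c =>
    have := (h.1 _ _ hm).1
    rw [pl3 hs] at this
    simpa using this

/-- around the ring of a variable -/
theorem ring {s : ℕ} (hs : s < 3 * ψ.length) :
    (M (4 * pv (sc ψ s) + 1) = some (4 * s + 3) ↔ M (4 * s + 1) = some (4 * s + 2)) := by
  rw [symm_iff h, symm_iff h (a := 4 * s + 1)]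
  rcases st3 h hk hs with h3 | h3 <;> rcases st2 h hk hs with h2 | h2
  · rw [symm_iff h, h3] at h2
    simp at h2
    omega
  · simp [h2, h3]
  · rw [h2, h3]
    simp
    omega
  · rw [symm_iff h, h2] at h3
    simp at h3

theorem chord {s : ℕ} (hs : s < 3 * ψ.length) (h1 : M (4 * nx s) = some (4 * s))
    (h2 : M (4 * s + 1) = some (4 * pd ψ (nx s) + 3)) : False := by
  have hn := nx_lt hs
  refine no_pair h hk (a := 4 * nx s) (b := 4 * s + 1) (by omega)
    (likes_of ?_ h1 ?_) (likes_of ?_ h2 ?_)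
  · rw [pl0 hn, pv_nx]; simp
  · rw [pl0 hn, pv_nx, idx1 (by omega), idx2 (by have := nx_ne_pv (nx s); rw [pv_nx] at this; omega) (by omega)]
    omega
  · rw [pl1 hs]; simp
  · rw [pl1 hs, idx1 (by omega), idx2 (by omega) (by omega)]
    omega


theorem tri {s : ℕ} (hs : s < 3 * ψ.length) (hk3 : 3 ≤ k) (h1 : M (4 * s) = some (4 * pv s + 1))
    (h2 : M (4 * nx s) = some (4 * s + 1)) (h3 : M (4 * pv s) = some (4 * nx s + 1)) : False := by
  have hn := nx_lt hs
  have hp := pv_lt hs
  have e1 := nx_ne s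
  have e2 := pv_ne s
  have e3 := nx_ne_pv s
  refine no_triple h hk3 (a := 4 * s) (b := 4 * nx s) (c := 4 * pv s) ?_
    (likes_of ?_ h1 ?_) (likes_of ?_ h2 ?_) (likes_of ?_ h3 ?_)
  · simp; omega
  · rw [pl0 hs]; simp
  · rw [pl0 hs, idx0, idx1 (by omega)]; omega
  · rw [pl0 hn, nx_nx]; simp
  · rw [pl0 hn, nx_nx, pv_nx, idx0, idx1 (by omega)]; omega
  · rw [pl0 hp, nx_pv]; simp
  · rw [pl0 hp, nx_pv, pv_pv, idx0, idx1 (by omega)]; omega

/-- the counting argument -/
theorem count {s : ℕ} (hs : s < 3 * ψ.length) :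
    M (4 * s + 1) = some (4 * pd ψ (nx s) + 3) ↔ M (4 * nx s) = some (4 * pv s) := by
  classical
  let R := Finset.range (3 * ψ.length)
  let NA := R.filter fun s => M (4 * s) = some (4 * nx s)
  let PA := R.filter fun s => M (4 * s) = some (4 * pv s)
  let CA := R.filter fun s => M (4 * s) = some (4 * pv s + 1)
  let NY := R.filter fun s => M (4 * s + 1) = some (4 * s + 2)
  let PY := R.filter fun s => M (4 * s + 1) = some (4 * pd ψ (nx s) + 3)
  let CY := R.filter fun s => M (4 * s + 1) = some (4 * nx s)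
  have c1 : PA.card = NA.card := by
    refine Finset.card_bij' (fun s _ => pv s) (fun s _ => nx s) ?_ ?_ ?_ ?_
    · intro s hs
      simp only [PA, NA, R, Finset.mem_filter, Finset.mem_range] at hs ⊢
      exact ⟨pv_lt hs.1, by rw [nx_pv, symm_iff h]; exact hs.2⟩
    · intro s hs
      simp only [PA, NA, R, Finset.mem_filter, Finset.mem_range] at hs ⊢
      exact ⟨nx_lt hs.1, by rw [pv_nx, symm_iff h]; exact hs.2⟩
    · intro s _; exact nx_pv s
    · intro s _; exact pv_nx s
  have c2 : CA.card = CY.card := by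
    refine Finset.card_bij' (fun s _ => pv s) (fun s _ => nx s) ?_ ?_ ?_ ?_
    · intro s hs
      simp only [CA, CY, R, Finset.mem_filter, Finset.mem_range] at hs ⊢
      exact ⟨pv_lt hs.1, by rw [nx_pv, symm_iff h]; exact hs.2⟩
    · intro s hs
      simp only [CA, CY, R, Finset.mem_filter, Finset.mem_range] at hs ⊢
      exact ⟨nx_lt hs.1, by rw [pv_nx, symm_iff h]; exact hs.2⟩
    · intro s _; exact nx_pv s
    · intro s _; exact pv_nx s
  have c3 : PY.card = NY.card := by
    refine Finset.card_bij' (fun s _ => pd ψ (nx s)) (fun s _ => pv (sc ψ s)) ?_ ?_ ?_ ?_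
    · intro s hs
      simp only [PY, NY, R, Finset.mem_filter, Finset.mem_range] at hs ⊢
      have h1 := nx_lt hs.1
      have h2 := pd_lt h1
      refine ⟨h2, ?_⟩
      rw [← ring h hk h2, sc_pd h1, pv_nx]
      exact hs.2
    · intro s hs
      simp only [PY, NY, R, Finset.mem_filter, Finset.mem_range] at hs ⊢
      have h1 := sc_lt hs.1
      refine ⟨pv_lt h1, ?_⟩
      rw [nx_pv, pd_sc hs.1, ring h hk hs.1]
      exact hs.2
    · intro s hs
      simp only [PY, R, Finset.mem_filter, Finset.mem_range] at hs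
      have h1 := nx_lt hs.1
      simp only [sc_pd h1, pv_nx]
    · intro s hs
      simp only [NY, R, Finset.mem_filter, Finset.mem_range] at hs
      simp only [nx_pv, pd_sc hs.1]
  have c4 : NA.card + CA.card + PA.card = R.card := by
    rw [← Finset.card_union_of_disjoint, ← Finset.card_union_of_disjoint]
    · congr 1
      ext s
      simp only [NA, CA, PA, R, Finset.mem_union, Finset.mem_filter, Finset.mem_range]
      constructor
      · rintro ((⟨h, _⟩ | ⟨h, _⟩) | ⟨h, _⟩) <;> exact h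
      · intro hs
        rcases st0 h hk hs with h1 | h1 | h1
        · exact Or.inl (Or.inl ⟨hs, h1⟩)
        · exact Or.inl (Or.inr ⟨hs, h1⟩)
        · exact Or.inr ⟨hs, h1⟩
    · rw [Finset.disjoint_left]
      intro s h1 h2
      simp only [NA, CA, PA, R, Finset.mem_union, Finset.mem_filter, Finset.mem_range] at h1 h2
      have := nx_ne_pv s
      rw [h2.2] at h1
      simp at h1
      omega
    · rw [Finset.disjoint_left]
      intro s h1 h2
      simp only [NA, CA, PA, R, Finset.mem_union, Finset.mem_filter, Finset.mem_range] at h1 h2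
      rw [h2.2] at h1
      simp at h1
      omega
  have c5 : NY.card + CY.card + PY.card = R.card := by
    rw [← Finset.card_union_of_disjoint, ← Finset.card_union_of_disjoint]
    · congr 1
      ext s
      simp only [NY, CY, PY, R, Finset.mem_union, Finset.mem_filter, Finset.mem_range]
      constructor
      · rintro ((⟨h, _⟩ | ⟨h, _⟩) | ⟨h, _⟩) <;> exact h
      · intro hs
        rcases st1 h hk hs with h1 | h1 | h1
        · exact Or.inl (Or.inl ⟨hs, h1⟩)
        · exact Or.inl (Or.inr ⟨hs, h1⟩)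
        · exact Or.inr ⟨hs, h1⟩
    · rw [Finset.disjoint_left]
      intro s h1 h2
      simp only [NY, CY, PY, R, Finset.mem_union, Finset.mem_filter, Finset.mem_range] at h1 h2
      rw [h2.2] at h1
      simp at h1
      omega
    · rw [Finset.disjoint_left]
      intro s h1 h2
      simp only [NY, CY, PY, R, Finset.mem_union, Finset.mem_filter, Finset.mem_range] at h1 h2
      rw [h2.2] at h1
      simp at h1
      omega
  -- the image of `PY`
  have himp : ∀ s < 3 * ψ.length, M (4 * s + 1) = some (4 * pd ψ (nx s) + 3) →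
      M (4 * nx s) = some (4 * pv s) := by
    intro s hs h1
    have hn := nx_lt hs
    rcases st0 h hk hn with h2 | h2 | h2
    · rwa [nx_nx] at h2
    · rw [symm_iff h, pv_nx, h1] at h2
      simp at h2
      omega
    · rw [pv_nx] at h2
      exact absurd h2 fun h2 => chord h hk hs h2 h1
  have c6 : (PY.image nx) ⊆ NA := by
    intro s hs
    rw [Finset.mem_image] at hs
    obtain ⟨t, ht, rfl⟩ := hs
    simp only [PY, NA, R, Finset.mem_filter, Finset.mem_range] at ht ⊢
    exact ⟨nx_lt ht.1, by rw [nx_nx]; exact himp t ht.1 ht.2⟩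
  have c7 : (PY.image nx).card = PY.card :=
    Finset.card_image_of_injective _ fun a b hab => by
      have := congrArg pv hab
      rwa [pv_nx, pv_nx] at this
  have c8 : PY.image nx = NA := Finset.eq_of_subset_of_card_le c6 (by omega)
  constructor
  · exact himp s hs
  · intro h1
    have : nx s ∈ NA := by
      simp only [NA, R, Finset.mem_filter, Finset.mem_range]
      exact ⟨nx_lt hs, by rw [nx_nx]; exact h1⟩
    rw [← c8, Finset.mem_image] at this
    obtain ⟨t, ht, h2⟩ := this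
    have h3 : t = s := by
      have := congrArg pv h2
      rwa [pv_nx, pv_nx] at this
    subst h3
    simp only [PY, Finset.mem_filter] at ht
    exact ht.2

theorem sc_iff {s : ℕ} (hs : s < 3 * ψ.length) :
    M (4 * sc ψ s) = some (4 * nx (sc ψ s)) ↔ M (4 * s) = some (4 * nx s) := by
  have h1 := sc_lt hs
  have h2 := pv_lt h1
  have e1 := count h hk h2
  rw [nx_pv, pd_sc hs, ring h hk hs, pv_pv] at e1
  rw [← e1]
  have hn := nx_lt hs
  -- `N(y_s) ↔ P(a_{nx s})`
  have e2 := count h hk hs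
  have e3 : M (4 * s) = some (4 * nx s) ↔ M (4 * nx s) = some (4 * s) := symm_iff h
  rw [e3]
  rcases st1 h hk hs with k1 | k1 | k1 <;> rcases st0 h hk hn with k2 | k2 | k2
  · rw [nx_nx] at k2
    have := e2.2 k2
    rw [k1] at this
    simp at this
    omega
  · rw [symm_iff h, pv_nx, k1] at k2
    simp at k2
    omega
  · rw [pv_nx] at k2
    simp [k1, k2]
  · rw [symm_iff h, k2, nx_nx] at k1
    simp at k1
    omega
  · rw [pv_nx] at k2
    rw [k1, k2]
    simp
    omega
  · rw [symm_iff h, k2, pv_nx] at k1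
    simp at k1
  · rw [nx_nx] at k2
    rw [k1, k2]
    have := pv_ne s
    simp
    omega
  · rw [symm_iff h, pv_nx, k1] at k2
    simp at k2
    omega
  · have h3 := e2.1 k1
    rw [k2, pv_nx] at h3
    have h4 := pv_ne s
    have h5 := Option.some.inj h3
    omega

end

theorem sound {ψ : P3} {M : ℕ → Option ℕ} {k : ℕ} (h : KCycleStable k (inst ψ) M) (hk : 3 ≤ k) :
    One3 ψ := by
  classical
  have hk2 : 2 ≤ k := by omega
  let τ : ℕ → Bool := fun v => decide (∃ s < 3 * ψ.length, va ψ s = v ∧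
    M (4 * s) = some (4 * nx s))
  have hτ : ∀ s < 3 * ψ.length, τ (va ψ s) = true ↔ M (4 * s) = some (4 * nx s) := by
    intro s hs
    simp only [τ, decide_eq_true_eq]
    constructor
    · rintro ⟨t, ht, hv, h1⟩
      exact (const_of_sc (P := fun s => M (4 * s) = some (4 * nx s))
        (fun i hi => sc_iff h hk2 hi) hs ht hv).2 h1
    · intro h1
      exact ⟨s, hs, rfl, h1⟩
  refine ⟨τ, ?_⟩
  intro c hc
  obtain ⟨j, hj, rfl⟩ := List.getElem_of_mem hc
  have e1 : 3 * j % 3 = 0 := by omega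
  have e2 : 3 * j / 3 = j := by omega
  have e3 : (3 * j + 1) % 3 = 1 := by omega
  have e4 : (3 * j + 1) / 3 = j := by omega
  have e5 : (3 * j + 2) % 3 = 2 := by omega
  have e6 : (3 * j + 2) / 3 = j := by omega
  have v0 : va ψ (3 * j) = ψ[j].1 := by
    simp [va, e2, hj]
  have v1 : va ψ (3 * j + 1) = ψ[j].2.1 := by
    simp [va, e3, e4, hj]
  have v2 : va ψ (3 * j + 2) = ψ[j].2.2 := by
    simp [va, e5, e6, hj]
  have n0 : nx (3 * j) = 3 * j + 1 := by unfold nx; omega
  have n1 : nx (3 * j + 1) = 3 * j + 2 := by unfold nx; omega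
  have n2 : nx (3 * j + 2) = 3 * j := by unfold nx; omega
  have p0 : pv (3 * j) = 3 * j + 2 := by unfold pv; omega
  have p1 : pv (3 * j + 1) = 3 * j := by unfold pv; omega
  have p2 : pv (3 * j + 2) = 3 * j + 1 := by unfold pv; omega
  have t0 := hτ (3 * j) (by omega)
  have t1 := hτ (3 * j + 1) (by omega)
  have t2 := hτ (3 * j + 2) (by omega)
  have s0 := st0 h hk2 (s := 3 * j) (by omega)
  have s1 := st0 h hk2 (s := 3 * j + 1) (by omega)
  have s2 := st0 h hk2 (s := 3 * j + 2) (by omega)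
  have r := tri h hk2 (s := 3 * j) (by omega) hk
  have y0 : M (4 * (3 * j)) = some (4 * (3 * j + 1)) ↔ M (4 * (3 * j + 1)) = some (4 * (3 * j)) :=
    symm_iff h
  have y1 : M (4 * (3 * j + 1)) = some (4 * (3 * j + 2)) ↔
      M (4 * (3 * j + 2)) = some (4 * (3 * j + 1)) := symm_iff h
  have y2 : M (4 * (3 * j + 2)) = some (4 * (3 * j)) ↔
      M (4 * (3 * j)) = some (4 * (3 * j + 2)) := symm_iff h
  rw [v0, n0] at t0
  rw [v1, n1] at t1
  rw [v2, n2] at t2
  rw [n0, p0] at s0
  rw [n1, p1] at s1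
  rw [n2, p2] at s2
  rw [n0, p0] at r
  unfold Ex1
  rw [← Bool.not_eq_true (τ ψ[j].1), ← Bool.not_eq_true (τ ψ[j].2.1),
    ← Bool.not_eq_true (τ ψ[j].2.2), t0, t1, t2]
  generalize M (4 * (3 * j)) = m0 at *
  generalize M (4 * (3 * j + 1)) = m1 at *
  generalize M (4 * (3 * j + 2)) = m2 at *
  rcases s0 with rfl | rfl | rfl <;> rcases s1 with rfl | rfl | rfl <;>
    rcases s2 with rfl | rfl | rfl <;>
    simp at y0 y1 y2 r ⊢ <;> omega

end Pool.Agent.V11231.CSR
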