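import Pool.Agent.V11231.CSR.Comp

/-!
# Cycle stable roommates matchings: polynomial time, membership in NP
-/

set_option autoImplicit false

namespace Pool.Agent.V11231.CSR

open Pool.Agent.NPC Pool.Agent.V11231.CES Pool.Agent.V11231.Util

section poly

variable {α : Type} [TEnc α]

@[fun_prop]
theorem va_poly {f : α → P3} {i : α → ℕ} (hf : Poly f) (hi : Poly i) :
    Poly (fun a => va (f a) (i a)) := by
  unfold va
  have h : Poly (fun a => (f a).getD (i a / 3) (0, 0, 0)) :=
    NPC.Poly.getD hf (by fun_prop) (NPC.Poly.const _)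
  fun_prop

@[fun_prop]
theorem nx_poly {i : α → ℕ} (hi : Poly i) : Poly (fun a => nx (i a)) := by
  unfold nx
  fun_prop

@[fun_prop]
theorem pv_poly {i : α → ℕ} (hi : Poly i) : Poly (fun a => pv (i a)) := by
  unfold pv
  fun_prop

theorem n3_uPoly {f : α → P3} (hf : Poly f) : UPoly (fun a => 3 * (f a).length) :=
  UPoly.mul (UPoly.const 3) (UPoly.length hf)

@[fun_prop]
theorem range3_poly {f : α → P3} (hf : Poly f) : Poly (fun a => List.range (3 * (f a).length)) :=
  (n3_uPoly hf).range

@[fun_prop]
theorem range12_poly {f : α → P3} (hf : Poly f) :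
    Poly (fun a => List.range (4 * (3 * (f a).length))) :=
  (UPoly.mul (UPoly.const 4) (n3_uPoly hf)).range

@[fun_prop]
theorem occ_poly {f : α → P3} {i : α → ℕ} (hf : Poly f) (hi : Poly i) :
    Poly (fun a => occ (f a) (i a)) := by
  unfold occ
  fun_prop

@[fun_prop]
theorem cyc_poly {l : α → List ℕ} {k i : α → ℕ} (hl : Poly l) (hk : Poly k) (hi : Poly i) :
    Poly (fun a => cyc (l a) (k a) (i a)) := by
  unfold cyc
  fun_prop

@[fun_prop]
theorem sc_poly {f : α → P3} {i : α → ℕ} (hf : Poly f) (hi : Poly i) :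
    Poly (fun a => sc (f a) (i a)) := by
  unfold sc
  fun_prop

@[fun_prop]
theorem pd_poly {f : α → P3} {i : α → ℕ} (hf : Poly f) (hi : Poly i) :
    Poly (fun a => pd (f a) (i a)) := by
  unfold pd
  fun_prop

@[fun_prop]
theorem ent_poly {f : α → P3} {i : α → ℕ} (hf : Poly f) (hi : Poly i) :
    Poly (fun a => ent (f a) (i a)) := by
  unfold ent
  fun_prop

theorem inst_poly : Poly inst := by
  unfold inst
  fun_prop

end poly

/-! ### Checking instances and matchings -/

/-- the test of instances -/
def instB (L : ℕ) (I : Prefs) : Bool :=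
  I.all (fun l => decide (l.length ≤ L) &&
    (rg l).all fun i => (rg l).all fun j => decide (i = j) || !decide (l.getD i 0 = l.getD j 0)) &&
  (rg I).all fun a => (plist I a).all fun b =>
    (decide (b < I.length) && !decide (b = a)) && decide (a ∈ plist I b)

@[fun_prop]
theorem plist_poly {α : Type} [TEnc α] {f : α → Prefs} {i : α → ℕ} (hf : Poly f) (hi : Poly i) :
    Poly (fun a => plist (f a) (i a)) := by
  unfold plist
  fun_prop

theorem instB_poly (L : ℕ) : Poly (instB L) := by
  unfold instB
  fun_prop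

theorem instB_iff {L : ℕ} {I : Prefs} : instB L I = true ↔
    IsInst I ∧ ∀ l ∈ I, l.length ≤ L := by
  unfold instB IsInst rg
  simp only [Bool.and_eq_true, decide_eq_true_eq, List.all_eq_true, List.mem_range,
    Bool.or_eq_true, Bool.not_eq_true', decide_eq_false_iff_not]
  constructor
  · rintro ⟨h1, h2⟩
    refine ⟨⟨fun l hl => ?_, fun a b hb => ?_⟩, fun l hl => (h1 l hl).1⟩
    · rw [List.nodup_iff_injective_get]
      intro i j hij
      rcases (h1 l hl).2 i i.2 j j.2 with h | h
      · exact Fin.ext h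
      · exfalso
        apply h
        rw [List.getD_eq_getElem _ _ i.2, List.getD_eq_getElem _ _ j.2]
        simpa using hij
    · have ha : a < I.length := by
        by_contra h
        unfold plist at hb
        rw [List.getD_eq_default _ _ (by omega)] at hb
        simp at hb
      have := h2 a ha b hb
      exact ⟨this.1.1, this.1.2, this.2⟩
  · rintro ⟨⟨h1, h2⟩, h3⟩
    refine ⟨fun l hl => ⟨h3 l hl, fun i hi j hj => ?_⟩, fun a ha b hb => ?_⟩
    · by_cases hij : i = j
      · exact Or.inl hij
      · refine Or.inr fun h => hij ?_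
        rw [List.getD_eq_getElem _ _ hi, List.getD_eq_getElem _ _ hj] at h
        exact (h1 l hl).getElem_inj_iff.1 h
    · obtain ⟨h4, h5, h6⟩ := h2 a b hb
      exact ⟨⟨h4, h5⟩, h6⟩

/-- the matching with a list of partners -/
def mOf (P : List ℕ) (a : ℕ) : Option ℕ :=
  if P.length ≤ a then none else if P.getD a 0 = a then none else some (P.getD a 0)

theorem mOf_some {P : List ℕ} {a b : ℕ} : mOf P a = some b ↔ a < P.length ∧ P.getD a 0 ≠ a ∧
    P.getD a 0 = b := by
  unfold mOf
  by_cases h1 : P.length ≤ a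
  · rw [if_pos h1]
    constructor
    · intro h; simp at h
    · intro h; omega
  · rw [if_neg h1]
    by_cases h2 : P.getD a 0 = a
    · rw [if_pos h2]
      constructor
      · intro h; simp at h
      · intro h; exact absurd h2 h.2.1
    · rw [if_neg h2, Option.some.injEq]
      constructor
      · intro h; exact ⟨by omega, h2, h⟩
      · intro h; exact h.2.2

/-- the test of matchings -/
def matB (I : Prefs) (P : List ℕ) : Bool :=
  decide (P.length = I.length) && (rg I).all fun a => decide (P.getD a 0 = a) ||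
    (decide (P.getD a 0 ∈ plist I a) && decide (P.getD (P.getD a 0) 0 = a))

/-- the test of `Likes` -/
def likB (I : Prefs) (P : List ℕ) (a b : ℕ) : Bool :=
  decide (b ∈ plist I a) && (decide (P.getD a 0 = a) ||
    decide ((plist I a).idxOf b < (plist I a).idxOf (P.getD a 0)))

@[fun_prop]
theorem matB_poly {α : Type} [TEnc α] {f : α → Prefs} {P : α → List ℕ} (hf : Poly f)
    (hP : Poly P) : Poly (fun a => matB (f a) (P a)) := by
  unfold matB
  fun_prop

@[fun_prop]
theorem likB_poly {α : Type} [TEnc α] {f : α → Prefs} {P : α → List ℕ} {i j : α → ℕ} (hf : Poly f)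
    (hP : Poly P) (hi : Poly i) (hj : Poly j) : Poly (fun a => likB (f a) (P a) (i a) (j a)) := by
  unfold likB
  fun_prop

theorem plist_lt {I : Prefs} {a b : ℕ} (hb : b ∈ plist I a) : a < I.length := by
  by_contra h
  unfold plist at hb
  rw [List.getD_eq_default _ _ (by omega)] at hb
  simp at hb

theorem matB_iff {I : Prefs} (hI : IsInst I) {P : List ℕ} (hP : P.length = I.length) :
    matB I P = true ↔ IsMatching I (mOf P) := by
  unfold matB IsMatching rg
  simp only [Bool.and_eq_true, decide_eq_true_eq, List.all_eq_true, List.mem_range,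
    Bool.or_eq_true, mOf_some]
  constructor
  · rintro ⟨-, h1⟩ a b ⟨ha, hne, hab⟩
    rcases h1 a (by omega) with h | ⟨h2, h3⟩
    · exact absurd h hne
    · rw [hab] at h2 h3 hne
      have hb := (hI.2 a b h2).1
      refine ⟨h2, by omega, ?_, h3⟩
      rw [h3]
      exact fun h => hne h.symm
  · intro h
    refine ⟨hP, fun a ha => ?_⟩
    by_cases h1 : P.getD a 0 = a
    · exact Or.inl h1
    · obtain ⟨h2, -, -, h3⟩ := h a _ ⟨by omega, h1, rfl⟩
      exact Or.inr ⟨h2, h3⟩

theorem likB_iff {I : Prefs} {P : List ℕ} (hP : P.length = I.length) {a b : ℕ} :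
    likB I P a b = true ↔ Likes I (mOf P) a b := by
  unfold likB Likes
  simp only [Bool.and_eq_true, decide_eq_true_eq, Bool.or_eq_true, mOf_some]
  constructor
  · rintro ⟨h1, h2⟩
    refine ⟨h1, ?_⟩
    rintro c ⟨h3, h4, rfl⟩
    rcases h2 with h2 | h2
    · exact absurd h2 h4
    · exact h2
  · rintro ⟨h1, h2⟩
    refine ⟨h1, ?_⟩
    by_cases h3 : P.getD a 0 = a
    · exact Or.inl h3
    · exact Or.inr (h2 _ ⟨by have := plist_lt h1; omega, h3, rfl⟩)

/-- every matching is given by a list of partners -/
theorem exists_list {I : Prefs} (hI : IsInst I) {M : ℕ → Option ℕ} (hM : IsMatching I M) :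
    ∃ P : List ℕ, P.length = I.length ∧ (∀ x ∈ P, x < I.length) ∧ mOf P = M := by
  refine ⟨(List.range I.length).map fun a => (M a).getD a, by simp, ?_, ?_⟩
  · intro x hx
    rw [List.mem_map] at hx
    obtain ⟨a, ha, rfl⟩ := hx
    rw [List.mem_range] at ha
    cases h : M a with
    | none => simpa using ha
    | some b => simpa using (hI.2 a b (hM a b h).1).1
  · funext a
    unfold mOf
    by_cases ha : I.length ≤ a
    · rw [if_pos (by simpa using ha)]
      cases h : M a with
      | none => rfl
      | some b =>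
        have := plist_lt (hM a b h).1
        omega
    · rw [if_neg (by simpa using ha)]
      have hg : ((List.range I.length).map fun a => (M a).getD a).getD a 0 = (M a).getD a := by
        rw [List.getD_eq_getElem _ _ (by simp; omega)]
        simp
      rw [hg]
      cases h : M a with
      | none => simp
      | some b =>
        have := (hI.2 a b (hM a b h).1).2.1
        simp only [Option.getD_some]
        rw [if_neg this]

/-! ### Membership in NP -/

/-- the test of certificates for cycle stability -/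
def chk (L : ℕ) (p : Prefs × (List ℕ × List ℕ)) : Bool :=
  (instB L p.1 && matB p.1 p.2.1) && (rg p.1).all fun a => (rg p.1).all fun b =>
    !likB p.1 p.2.1 a b || decide (p.2.2.getD b 0 < p.2.2.getD a 0)

/-- the test of certificates for 3-cycle stability -/
def chk3 (L : ℕ) (p : Prefs × List ℕ) : Bool :=
  (instB L p.1 && matB p.1 p.2) && ((rg p.1).all fun a => (rg p.1).all fun b =>
    !(likB p.1 p.2 a b && likB p.1 p.2 b a)) && ((rg p.1).all fun a => (rg p.1).all fun b =>
    (rg p.1).all fun c => !(likB p.1 p.2 a b && (likB p.1 p.2 b c && likB p.1 p.2 c a)))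

theorem chk_poly (L : ℕ) : Poly (chk L) := by
  unfold chk
  have h : Poly (fun p : Prefs × (List ℕ × List ℕ) => instB L p.1) :=
    (instB_poly L).comp (by fun_prop)
  fun_prop

theorem chk3_poly (L : ℕ) : Poly (chk3 L) := by
  unfold chk3
  have h : Poly (fun p : Prefs × List ℕ => instB L p.1) :=
    (instB_poly L).comp (by fun_prop)
  fun_prop

theorem size_bound {n : ℕ} {P : List ℕ} (hl : P.length ≤ n) {m : ℕ} (hP : ∀ x ∈ P, x ≤ m) :
    sz P ≤ n * (4 * m + 1 + 1) + 1 := by
  have h1 := sz_le_length_mul P (4 * m + 1) (fun x hx => by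
    have h1 := hP x hx
    have h2 := sz_nat_le' x
    omega)
  have h2 : P.length * (4 * m + 1 + 1) ≤ n * (4 * m + 1 + 1) := Nat.mul_le_mul_right _ hl
  omega

theorem mem_np (L : ℕ) : InNP (lang (CS L)) := by
  refine inNPP_of (chk_poly L) (100 * (Polynomial.X + 1) ^ 2) ?_
  intro I
  constructor
  · rintro ⟨hI, hL, M, hM, hno⟩
    obtain ⟨P, hP1, hP2, rfl⟩ := exists_list hI hM
    obtain ⟨r, hr1, hr2⟩ := exists_rank (S := Finset.range I.length) (R := Likes I (mOf P))
      (fun a h => (hI.2 a a h.1).2.1 rfl)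
      (fun w h2 hnd _ hR => hno w ⟨h2, hnd, hR⟩)
    rw [Finset.card_range] at hr1
    refine ⟨(P, (List.range I.length).map r), ?_, ?_⟩
    · have hn := length_lt_sz I
      have b1 := size_bound hP1.le (m := I.length) (fun x hx => (hP2 x hx).le)
      have b2 := size_bound (P := (List.range I.length).map r) (n := I.length) (by simp)
        (m := I.length) (fun x hx => by
          rw [List.mem_map] at hx
          obtain ⟨u, _, rfl⟩ := hx
          exact hr1 u)
      simp only [sz_pair, Polynomial.eval_mul, Polynomial.eval_pow, Polynomial.eval_add,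
        Polynomial.eval_X, Polynomial.eval_one, Polynomial.eval_ofNat]
      nlinarith
    · unfold chk
      simp only [Bool.and_eq_true, List.all_eq_true, rg, List.mem_range, Bool.or_eq_true,
        Bool.not_eq_true', decide_eq_true_eq]
      refine ⟨⟨instB_iff.2 ⟨hI, hL⟩, (matB_iff hI hP1).2 hM⟩, fun a ha b hb => ?_⟩
      by_cases h : Likes I (mOf P) a b
      · right
        have hg : ∀ c < I.length, ((List.range I.length).map r).getD c 0 = r c := by
          intro c hc
          rw [List.getD_eq_getElem _ _ (by simpa using hc)]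
          simp
        rw [hg a ha, hg b hb]
        exact hr2 a (by simpa using ha) b (by simpa using hb) h
      · left
        rw [← Bool.not_eq_true, likB_iff hP1]
        exact h
  · rintro ⟨⟨P, r⟩, -, h⟩
    unfold chk at h
    simp only [Bool.and_eq_true, List.all_eq_true, rg, List.mem_range, Bool.or_eq_true,
      Bool.not_eq_true', decide_eq_true_eq] at h
    obtain ⟨⟨h1, h2⟩, h3⟩ := h
    have hP : P.length = I.length := by
      unfold matB at h2
      simp only [Bool.and_eq_true, decide_eq_true_eq] at h2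
      exact h2.1
    obtain ⟨hI, hL⟩ := instB_iff.1 h1
    refine ⟨hI, hL, mOf P, (matB_iff hI hP).1 h2, ?_⟩
    rintro l ⟨g1, -, g3⟩
    refine no_cycle (R := Likes I (mOf P)) (P := fun _ => True) (fun a => r.getD a 0)
      (fun a b _ _ hab => ?_) l g1 (fun _ _ => trivial) g3
    rcases h3 a (plist_lt hab.1) b (hI.2 a b hab.1).1 with h4 | h4
    · rw [← Bool.not_eq_true, likB_iff hP] at h4
      exact absurd hab h4
    · exact h4

theorem three_iff {I : Prefs} (hI : IsInst I) {M : ℕ → Option ℕ} : (∀ l : List ℕ, l.length ≤ 3 →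
    ¬ BlockingCycle I M l) ↔ (∀ a b, ¬ (Likes I M a b ∧ Likes I M b a)) ∧
      ∀ a b c, ¬ (Likes I M a b ∧ Likes I M b c ∧ Likes I M c a) := by
  have hne : ∀ {a b}, Likes I M a b → a ≠ b := fun h h' => (hI.2 _ _ h.1).2.1 h'.symm
  constructor
  · intro h
    have key : ∀ a b, ¬ (Likes I M a b ∧ Likes I M b a) := by
      rintro a b ⟨h1, h2⟩
      refine h [a, b] (by simp) ⟨by simp, by simpa using hne h1, ?_⟩
      intro i x y hx hy
      have hi : i < 2 := by
        have := List.getElem?_eq_some_iff.1 hx
        obtain ⟨h, _⟩ := this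
        simpa using h
      interval_cases i <;> simp at hx hy <;> subst hx <;> subst hy <;> assumption
    refine ⟨key, ?_⟩
    rintro a b c ⟨h1, h2, h3⟩
    refine h [a, b, c] (by simp) ⟨by simp, ?_, ?_⟩
    · simp only [List.nodup_cons, List.mem_cons, List.not_mem_nil, or_false, not_or,
        not_false_eq_true, List.nodup_nil, and_true]
      exact ⟨⟨hne h1, fun h => hne h3 h.symm⟩, hne h2⟩
    · intro i x y hx hy
      have hi : i < 3 := by
        have := List.getElem?_eq_some_iff.1 hx
        obtain ⟨h, _⟩ := this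
        simpa using h
      interval_cases i <;> simp at hx hy <;> subst hx <;> subst hy <;> assumption
  · rintro ⟨h1, h2⟩ l hl ⟨h3, -, h5⟩
    match l, hl, h3, h5 with
    | [a, b], _, _, h5 =>
      exact h1 a b ⟨h5 0 a b (by simp) (by simp), h5 1 b a (by simp) (by simp)⟩
    | [a, b, c], _, _, h5 =>
      exact h2 a b c ⟨h5 0 a b (by simp) (by simp), h5 1 b c (by simp) (by simp),
        h5 2 c a (by simp) (by simp)⟩

theorem chk3_iff {L : ℕ} {I : Prefs} {P : List ℕ} : chk3 L (I, P) = true ↔
    (IsInst I ∧ (∀ l ∈ I, l.length ≤ L) ∧ P.length = I.length ∧ KCycleStable 3 I (mOf P)) := by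
  unfold chk3
  simp only [Bool.and_eq_true, List.all_eq_true, rg, List.mem_range,
      Bool.not_eq_true', instB_iff]
  constructor
  · rintro ⟨⟨⟨⟨hI, hL⟩, h2⟩, h3⟩, h4⟩
    have hP : P.length = I.length := by
      unfold matB at h2
      simp only [Bool.and_eq_true, decide_eq_true_eq] at h2
      exact h2.1
    refine ⟨hI, hL, hP, (matB_iff hI hP).1 h2, (three_iff hI).2 ⟨?_, ?_⟩⟩
    · rintro a b ⟨g1, g2⟩
      have := h3 a (plist_lt g1.1) b (plist_lt g2.1)
      rw [(likB_iff hP).2 g1, (likB_iff hP).2 g2] at this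
      simp at this
    · rintro a b c ⟨g1, g2, g3⟩
      have := h4 a (plist_lt g1.1) b (plist_lt g2.1) c (plist_lt g3.1)
      rw [(likB_iff hP).2 g1, (likB_iff hP).2 g2, (likB_iff hP).2 g3] at this
      simp at this
  · rintro ⟨hI, hL, hP, hM, hno⟩
    obtain ⟨k1, k2⟩ := (three_iff hI).1 hno
    refine ⟨⟨⟨⟨hI, hL⟩, (matB_iff hI hP).2 hM⟩, ?_⟩, ?_⟩
    · intro a _ b _
      rw [← Bool.not_eq_true, Bool.and_eq_true, likB_iff hP, likB_iff hP]
      exact k1 a b
    · intro a _ b _ c _
      rw [← Bool.not_eq_true, Bool.and_eq_true, Bool.and_eq_true, likB_iff hP, likB_iff hP,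
        likB_iff hP]
      exact k2 a b c

theorem mem_np3 (L : ℕ) : InNP (lang (CSk 3 L)) := by
  refine inNPP_of (chk3_poly L) (100 * (Polynomial.X + 1) ^ 2) ?_
  intro I
  constructor
  · rintro ⟨hI, hL, M, hM, hno⟩
    obtain ⟨P, hP1, hP2, rfl⟩ := exists_list hI hM
    refine ⟨P, ?_, chk3_iff.2 ⟨hI, hL, hP1, hM, hno⟩⟩
    have hn := length_lt_sz I
    have b1 := size_bound hP1.le (m := I.length) (fun x hx => (hP2 x hx).le)
    simp only [Polynomial.eval_mul, Polynomial.eval_pow, Polynomial.eval_add,
      Polynomial.eval_X, Polynomial.eval_one, Polynomial.eval_ofNat]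
    nlinarith
  · rintro ⟨P, -, h⟩
    obtain ⟨h1, h2, h3, h4⟩ := chk3_iff.1 h
    exact ⟨h1, h2, mOf P, h4⟩

/-! ### Hardness -/

theorem hard_cs {L : ℕ} (hL : 3 ≤ L) : HardI (CS L) :=
  hardI_One3.trans inst_poly (fun ψ => by
    constructor
    · intro h
      exact ⟨isInst, fun l hl => (inst_three l hl).trans hL, complete h⟩
    · rintro ⟨-, -, M, hM⟩
      exact sound (hM.k 3) le_rfl)

theorem hard_csk {L k : ℕ} (hL : 3 ≤ L) (hk : 3 ≤ k) : HardI (CSk k L) :=
  hardI_One3.trans inst_poly (fun ψ => by
    constructor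
    · intro h
      obtain ⟨M, hM⟩ := complete h
      exact ⟨isInst, fun l hl => (inst_three l hl).trans hL, M, hM.k k⟩
    · rintro ⟨-, -, M, hM⟩
      exact sound hM hk)

end Pool.Agent.V11231.CSR
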