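import Pool.Agent.V11231.CSR.Np
import Pool.Agent.V11231.PSp

/-!
# Cycle stable roommates matchings: lists with at most two entries
-/

set_option autoImplicit false

namespace Pool.Agent.V11231.CSR

open Pool.Agent.NPC Pool.Agent.V11231.CES Pool.Agent.V11231.Util

/-- the first choice -/
def fc (I : Prefs) (a : ℕ) : ℕ := (plist I a).head?.getD a

/-- the system of equations -/
def Sys (I : Prefs) (F : ℕ → Bool) : Prop :=
  ∀ a, plist I a ≠ [] → (fc I (fc I a) = a → F a = true) ∧
    (fc I (fc I a) ≠ a → F (fc I a) = !F a)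

section

variable {I : Prefs}

theorem fc_mem {a : ℕ} (ha : plist I a ≠ []) : fc I a ∈ plist I a := by
  unfold fc
  cases h : plist I a with
  | nil => exact absurd h ha
  | cons x l => simp

theorem idx_fc {a : ℕ} (ha : plist I a ≠ []) : (plist I a).idxOf (fc I a) = 0 := by
  unfold fc
  cases h : plist I a with
  | nil => exact absurd h ha
  | cons x l => simp

theorem eq_fc {a b : ℕ} (hb : b ∈ plist I a) (h : (plist I a).idxOf b = 0) : b = fc I a := by
  have ha : plist I a ≠ [] := List.ne_nil_of_mem hb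
  exact (List.idxOf_inj hb).1 (by rw [h, idx_fc ha])

variable (hI : IsInst I) (hL : ∀ l ∈ I, l.length ≤ 2)

include hI in
theorem fc_ne {a : ℕ} (ha : plist I a ≠ []) : fc I a ≠ a := (hI.2 a _ (fc_mem ha)).2.1

include hI in
theorem fc_nil {a : ℕ} (ha : plist I a ≠ []) : plist I (fc I a) ≠ [] :=
  List.ne_nil_of_mem (hI.2 a _ (fc_mem ha)).2.2

include hL in
theorem len_two (a : ℕ) : (plist I a).length ≤ 2 := by
  unfold plist
  by_cases ha : a < I.length
  · rw [List.getD_eq_getElem _ _ ha]
    exact hL _ (List.getElem_mem ha)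
  · rw [List.getD_eq_default _ _ (by omega)]
    simp

include hL in
/-- two acceptable agents which are not the first choice are equal -/
theorem second_eq {a b c : ℕ} (hb : b ∈ plist I a) (hc : c ∈ plist I a) (hb' : b ≠ fc I a)
    (hc' : c ≠ fc I a) : b = c := by
  have h1 := List.idxOf_lt_length_iff.2 hb
  have h2 := List.idxOf_lt_length_iff.2 hc
  have h3 := len_two hL a
  have h4 : (plist I a).idxOf b ≠ 0 := fun h => hb' (eq_fc hb h)
  have h5 : (plist I a).idxOf c ≠ 0 := fun h => hc' (eq_fc hc h)
  exact (List.idxOf_inj hb).1 (by omega)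

include hI hL in
theorem sys_of_stable {M : ℕ → Option ℕ} {k : ℕ} (hk : 2 ≤ k) (h : KCycleStable k I M) :
    Sys I (fun a => decide (M a = some (fc I a))) := by
  intro a ha
  have h1 := hI.2 a _ (fc_mem ha)
  have h2 := fc_ne hI ha
  have h3 := fc_nil hI ha
  -- an agent which is not matched with its first choice likes it
  have key : ∀ x, plist I x ≠ [] → M x ≠ some (fc I x) → Likes I M x (fc I x) := by
    intro x hx hM
    refine ⟨fc_mem hx, fun c hc => ?_⟩
    rw [idx_fc hx]
    by_contra h4
    have h5 := eq_fc (h.1 _ _ hc).1 (by omega)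
    rw [h5] at hc
    exact hM hc
  refine ⟨fun h4 => ?_, fun h4 => ?_⟩
  · rw [decide_eq_true_eq]
    by_contra h5
    have h6 : M (fc I a) ≠ some (fc I (fc I a)) := by
      rw [h4]
      intro h6
      exact h5 (h.1 _ _ h6).2
    have h7 := key _ h3 h6
    rw [h4] at h7
    exact no_pair h hk h2.symm (key a ha h5) h7
  · by_cases h5 : M a = some (fc I a)
    · have h6 : M (fc I a) ≠ some (fc I (fc I a)) := by
        rw [(h.1 _ _ h5).2]
        intro h6
        exact h4 (Option.some.inj h6).symm
      simp [h5, h6]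
    · have h6 : M (fc I a) = some (fc I (fc I a)) := by
        by_contra h6
        have h7 : M (fc I a) = none := by
          cases hM : M (fc I a) with
          | none => rfl
          | some c =>
            exfalso
            have h8 := h.1 _ _ hM
            have h9 : c = a := by
              refine second_eq hL h8.1 h1.2.2 ?_ (fun h => h4 h.symm)
              rintro rfl
              exact h6 hM
            rw [h9] at h8
            exact h5 h8.2
        refine no_pair h hk h2.symm (key a ha h5) ⟨h1.2.2, fun c hc => ?_⟩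
        rw [h7] at hc
        simp at hc
      simp [h5, h6]

/-- the pairs given by a solution -/
def Pr (I : Prefs) (F : ℕ → Bool) (a b : ℕ) : Prop :=
  b ∈ plist I a ∧ ((b = fc I a ∧ F a = true) ∨ (b ≠ fc I a ∧ F a = false ∧
    ((fc I b = a ∧ F b = true) ∨ (fc I b ≠ a ∧ F b = false))))

include hL in
theorem pr_unique {F : ℕ → Bool} {a b c : ℕ} (h1 : Pr I F a b) (h2 : Pr I F a c) : b = c := by
  obtain ⟨hb, ⟨h3, h4⟩ | ⟨h3, h4, h5⟩⟩ := h1 <;> obtain ⟨hc, ⟨g3, g4⟩ | ⟨g3, g4, g5⟩⟩ := h2
  · rw [h3, g3]
  · rw [h4] at g4; simp at g4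
  · rw [h4] at g4; simp at g4
  · exact second_eq hL hb hc h3 g3

include hI in
theorem pr_symm {F : ℕ → Bool} (hF : Sys I F) {a b : ℕ} (h1 : Pr I F a b) : Pr I F b a := by
  obtain ⟨hb, h2⟩ := h1
  have ha := (hI.2 a b hb).2.2
  have na := List.ne_nil_of_mem hb
  have nb := List.ne_nil_of_mem ha
  obtain ⟨s1, s2⟩ := hF a na
  obtain ⟨t1, t2⟩ := hF b nb
  refine ⟨ha, ?_⟩
  rcases h2 with ⟨rfl, h4⟩ | ⟨h3, h4, ⟨h5, h6⟩ | ⟨h5, h6⟩⟩
  · by_cases h5 : fc I (fc I a) = a
    · exact Or.inl ⟨h5.symm, t1 (by rw [h5])⟩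
    · refine Or.inr ⟨fun h => h5 h.symm, ?_, Or.inl ⟨rfl, h4⟩⟩
      rw [s2 h5, h4]
      rfl
  · exact Or.inl ⟨h5.symm, h6⟩
  · exact Or.inr ⟨fun h => h5 h.symm, h6, Or.inr ⟨fun h => h3 h.symm, h4⟩⟩

include hI hL in
theorem stable_of_sys {F : ℕ → Bool} (hF : Sys I F) : ∃ M, CycleStable I M := by
  classical
  let M : ℕ → Option ℕ := fun a => if h : ∃ b, Pr I F a b then some h.choose else none
  have hM : ∀ a b, M a = some b ↔ Pr I F a b := by
    intro a b
    simp only [M]
    by_cases h : ∃ b, Pr I F a b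
    · rw [dif_pos h, Option.some.injEq]
      constructor
      · rintro rfl; exact h.choose_spec
      · intro h2; exact pr_unique hL h.choose_spec h2
    · rw [dif_neg h]
      constructor
      · intro h; simp at h
      · intro h2; exact absurd ⟨b, h2⟩ h
  refine ⟨M, fun a b hab => ?_, ?_⟩
  · rw [hM] at hab ⊢
    exact ⟨hab.1, pr_symm hI hF hab⟩
  · -- an agent liked by some agent likes nobody
    have key : ∀ a b, Likes I M a b → ∀ c, ¬ Likes I M b c := by
      intro a b hab c hbc
      have hb := hab.1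
      have ha := (hI.2 a b hb).2.2
      have na := List.ne_nil_of_mem hb
      have nb := List.ne_nil_of_mem ha
      obtain ⟨s1, s2⟩ := hF a na
      obtain ⟨t1, t2⟩ := hF b nb
      -- `a` is not matched with its first choice
      have h1 : F a = false := by
        rw [← Bool.not_eq_true]
        intro h1
        have h2 := hab.2 _ ((hM a _).2 ⟨fc_mem na, Or.inl ⟨rfl, h1⟩⟩)
        rw [idx_fc na] at h2
        omega
      have h2 : F b = false := by
        rw [← Bool.not_eq_true]
        intro h1
        have h2 := hbc.2 _ ((hM b _).2 ⟨fc_mem nb, Or.inl ⟨rfl, h1⟩⟩)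
        rw [idx_fc nb] at h2
        omega
      by_cases h3 : b = fc I a
      · subst h3
        by_cases h4 : fc I (fc I a) = a
        · rw [s1 h4] at h1
          simp at h1
        · have := s2 h4
          rw [h1, h2] at this
          simp at this
      · by_cases h4 : fc I b = a
        · by_cases h5 : fc I (fc I b) = b
          · rw [t1 h5] at h2
            simp at h2
          · have := t2 h5
            rw [h4, h1, h2] at this
            simp at this
        · have h5 : M a = some b := (hM a b).2 ⟨hb, Or.inr ⟨h3, h1, Or.inr ⟨h4, h2⟩⟩⟩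
          exact lt_irrefl _ (hab.2 _ h5)
    rintro l ⟨h1, -, h3⟩
    have hl : 0 < l.length := by omega
    have m1 : (0 + 1) % l.length < l.length := Nat.mod_lt _ hl
    have m2 : ((0 + 1) % l.length + 1) % l.length < l.length := Nat.mod_lt _ hl
    exact key _ _ (h3 0 _ _ (List.getElem?_eq_getElem hl) (List.getElem?_eq_getElem m1)) _
      (h3 _ _ _ (List.getElem?_eq_getElem m1) (List.getElem?_eq_getElem m2))

/-! ### Solving the system -/

/-- there is no odd cycle of first choices -/
def NoOdd (I : Prefs) : Prop :=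
  ∀ a, plist I a ≠ [] → ∀ j, j % 2 = 1 → (fc I)^[j] a ≠ a

include hI in
theorem iter_nil {a : ℕ} (ha : plist I a ≠ []) (i : ℕ) : plist I ((fc I)^[i] a) ≠ [] := by
  induction i with
  | zero => exact ha
  | succ i ih =>
    rw [Function.iterate_succ_apply']
    exact fc_nil hI ih

theorem iter_two {x : ℕ} (h : fc I (fc I x) = x) (m : ℕ) : (fc I)^[2 * m] x = x := by
  induction m with
  | zero => rfl
  | succ m ih =>
    rw [show 2 * (m + 1) = 2 * m + 1 + 1 by ring, Function.iterate_succ_apply,
      Function.iterate_succ_apply, h, ih]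

include hI in
theorem noOdd_of_sys {F : ℕ → Bool} (hF : Sys I F) : NoOdd I := by
  intro a ha j hj hja
  by_cases h : ∃ i, fc I (fc I ((fc I)^[i] a)) = (fc I)^[i] a
  · obtain ⟨i, hi⟩ := h
    have h1 : (fc I)^[j] ((fc I)^[i] a) = (fc I)^[i] a := by
      rw [← Function.iterate_add_apply, Nat.add_comm, Function.iterate_add_apply, hja]
    have h2 : j = 2 * (j / 2) + 1 := by omega
    rw [h2, Function.iterate_succ_apply] at h1
    have h3 := iter_two (I := I) (x := fc I ((fc I)^[i] a)) (by rw [hi]) (j / 2)
    rw [h1] at h3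
    exact fc_ne hI (iter_nil hI ha i) h3.symm
  · push Not at h
    have key : ∀ i, F ((fc I)^[i] a) = (F a ^^ decide (i % 2 = 1)) := by
      intro i
      induction i with
      | zero => simp
      | succ i ih =>
        rw [Function.iterate_succ_apply', (hF _ (iter_nil hI ha i)).2 (h i), ih]
        rcases Nat.mod_two_eq_zero_or_one i with h1 | h1
        · have h2 : (i + 1) % 2 = 1 := by omega
          cases F a <;> simp [h1, h2]
        · have h2 : (i + 1) % 2 = 0 := by omega
          cases F a <;> simp [h1, h2]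
    have h1 := key j
    rw [hja, hj] at h1
    cases h2 : F a <;> simp [h2] at h1

/-- the two orbits meet -/
def Meet (I : Prefs) (a b : ℕ) : Prop := ∃ i j, (fc I)^[i] a = (fc I)^[j] b

theorem meet_equiv : Equivalence (Meet I) := by
  refine ⟨fun a => ⟨0, 0, rfl⟩, fun ⟨i, j, h⟩ => ⟨j, i, h.symm⟩, ?_⟩
  rintro a b c ⟨i, j, h⟩ ⟨i', j', h'⟩
  refine ⟨i' + i, j + j', ?_⟩
  rw [Function.iterate_add_apply, h, ← Function.iterate_add_apply, Nat.add_comm,
    Function.iterate_add_apply, h', ← Function.iterate_add_apply]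

/-- the setoid of orbits -/
def sto (I : Prefs) : Setoid ℕ := ⟨Meet I, meet_equiv⟩

/-- a representative -/
noncomputable def rep (I : Prefs) (a : ℕ) : ℕ := (Quotient.mk (sto I) a).out

theorem rep_meet (a : ℕ) : Meet I a (rep I a) :=
  (sto I).symm (Quotient.exact (Quotient.out_eq (Quotient.mk (sto I) a)))

theorem rep_fc (a : ℕ) : rep I (fc I a) = rep I a := by
  unfold rep
  have : Quotient.mk (sto I) (fc I a) = Quotient.mk (sto I) a :=
    Quotient.sound (show Meet I (fc I a) a from ⟨0, 1, rfl⟩)
  rw [this]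

include hI in
theorem parity (hn : NoOdd I) {a : ℕ} (ha : plist I a ≠ []) {r i j i' j' : ℕ}
    (h1 : (fc I)^[i] a = (fc I)^[j] r) (h2 : (fc I)^[i'] a = (fc I)^[j'] r) :
    (i + j) % 2 = (i' + j') % 2 := by
  have h3 : (fc I)^[i + j'] a = (fc I)^[i' + j] a := by
    rw [Nat.add_comm i j', Function.iterate_add_apply, h1, ← Function.iterate_add_apply,
      Nat.add_comm j' j, Function.iterate_add_apply, ← h2, ← Function.iterate_add_apply,
      Nat.add_comm]
  by_contra hne
  rcases Nat.lt_or_ge (i + j') (i' + j) with h | h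
  · refine hn _ (iter_nil hI ha (i + j')) (i' + j - (i + j')) (by omega) ?_
    rw [← Function.iterate_add_apply, show i' + j - (i + j') + (i + j') = i' + j by omega, h3]
  · refine hn _ (iter_nil hI ha (i' + j)) (i + j' - (i' + j)) (by omega) ?_
    rw [← Function.iterate_add_apply, show i + j' - (i' + j) + (i' + j) = i + j' by omega, h3]

/-- the agent and its first choice are mutual first choices -/
def Mut (I : Prefs) (x : ℕ) : Prop := fc I (fc I x) = x

open Classical in
/-- the solution of the system -/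
noncomputable def sol (I : Prefs) (a : ℕ) : Bool :=
  if h : ∃ i, Mut I ((fc I)^[i] a) then decide (Nat.find h % 2 = 0)
  else decide (∃ i j, (fc I)^[i] a = (fc I)^[j] (rep I a) ∧ (i + j) % 2 = 0)

include hI in
theorem sys_sol (hn : NoOdd I) : Sys I (sol I) := by
  classical
  intro a ha
  refine ⟨fun h => ?_, fun h => ?_⟩
  · have h1 : ∃ i, Mut I ((fc I)^[i] a) := ⟨0, h⟩
    unfold sol
    rw [dif_pos h1, decide_eq_true_eq]
    have : Nat.find h1 = 0 := (Nat.find_eq_zero h1).2 h
    rw [this]
  · by_cases h1 : ∃ i, Mut I ((fc I)^[i] a)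
    · have h2 : ∃ i, Mut I ((fc I)^[i] (fc I a)) := by
        obtain ⟨i, hi⟩ := h1
        cases i with
        | zero => exact absurd hi h
        | succ i => exact ⟨i, by rwa [Function.iterate_succ_apply] at hi⟩
      unfold sol
      rw [dif_pos h1, dif_pos h2]
      have h3 : Nat.find h1 = Nat.find h2 + 1 := Nat.find_comp_succ h1 h2 h
      rw [h3]
      rcases Nat.mod_two_eq_zero_or_one (Nat.find h2) with h4 | h4
      · have h5 : (Nat.find h2 + 1) % 2 = 1 := by omega
        simp [h4, h5]
      · have h5 : (Nat.find h2 + 1) % 2 = 0 := by omega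
        simp [h4, h5]
    · have h2 : ¬ ∃ i, Mut I ((fc I)^[i] (fc I a)) := by
        rintro ⟨i, hi⟩
        exact h1 ⟨i + 1, by rwa [Function.iterate_succ_apply]⟩
      unfold sol
      rw [dif_neg h1, dif_neg h2, rep_fc]
      obtain ⟨i, j, hij⟩ := rep_meet (I := I) a
      have h3 : (fc I)^[i] (fc I a) = (fc I)^[j + 1] (rep I a) := by
        rw [← Function.iterate_succ_apply, Function.iterate_succ_apply', hij,
          ← Function.iterate_succ_apply' (fc I) j]
      have e1 : (∃ i j, (fc I)^[i] a = (fc I)^[j] (rep I a) ∧ (i + j) % 2 = 0) ↔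
          (i + j) % 2 = 0 := by
        constructor
        · rintro ⟨i', j', h4, h5⟩
          rw [parity hI hn ha hij h4, h5]
        · intro h4; exact ⟨i, j, hij, h4⟩
      have e2 : (∃ i j, (fc I)^[i] (fc I a) = (fc I)^[j] (rep I a) ∧ (i + j) % 2 = 0) ↔
          (i + (j + 1)) % 2 = 0 := by
        constructor
        · rintro ⟨i', j', h4, h5⟩
          rw [parity hI hn (fc_nil hI ha) h3 h4, h5]
        · intro h4; exact ⟨i, j + 1, h3, h4⟩
      simp only [e1, e2]
      rcases Nat.mod_two_eq_zero_or_one (i + j) with h4 | h4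
      · have h5 : (i + (j + 1)) % 2 = 1 := by omega
        simp [h4, h5]
      · have h5 : (i + (j + 1)) % 2 = 0 := by omega
        simp [h4, h5]

include hI hL in
theorem stable_iff {k : ℕ} (hk : 2 ≤ k) : ((∃ M, KCycleStable k I M) ↔ NoOdd I) ∧
    ((∃ M, CycleStable I M) ↔ NoOdd I) := by
  refine ⟨⟨?_, ?_⟩, ⟨?_, ?_⟩⟩
  · rintro ⟨M, hM⟩
    exact noOdd_of_sys hI (sys_of_stable hI hL hk hM)
  · intro h
    obtain ⟨M, hM⟩ := stable_of_sys hI hL (sys_sol hI h)
    exact ⟨M, hM.k k⟩
  · rintro ⟨M, hM⟩
    exact noOdd_of_sys hI (sys_of_stable hI hL (k := 2) le_rfl (hM.k 2))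
  · intro h
    exact stable_of_sys hI hL (sys_sol hI h)

/-! ### The algorithm -/

include hI in
theorem noOdd_iff : NoOdd I ↔ ∀ a < I.length, plist I a ≠ [] → ∀ j < I.length, j % 2 = 0 →
    (fc I)^[j + 1] a ≠ a := by
  constructor
  · intro h a _ ha j _ hj
    exact h a ha (j + 1) (by omega)
  · intro h a ha j hj hja
    have hal : ∀ i, (fc I)^[i] a < I.length := fun i => by
      have := iter_nil hI ha i
      obtain ⟨x, hx⟩ := List.exists_mem_of_ne_nil _ this
      exact plist_lt hx
    have hper : Function.IsPeriodicPt (fc I) j a := hja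
    have hd := hper.minimalPeriod_dvd
    have hpos : 0 < Function.minimalPeriod (fc I) a :=
      hper.minimalPeriod_pos (by omega)
    have hle : Function.minimalPeriod (fc I) a ≤ I.length := by
      have hinj : Set.InjOn (fun i => (fc I)^[i] a)
          (Finset.range (Function.minimalPeriod (fc I) a) : Set ℕ) := by
        intro i hi i' hi' he
        simp only [Finset.coe_range, Set.mem_Iio] at hi hi'
        exact (Function.iterate_eq_iterate_iff_of_lt_minimalPeriod hi hi').1 he
      have := Finset.card_le_card_of_injOn (s := Finset.range (Function.minimalPeriod (fc I) a))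
        (t := Finset.range I.length) (fun i => (fc I)^[i] a) (fun i _ => by
          simpa using hal i) hinj
      simpa using this
    have hodd : Function.minimalPeriod (fc I) a % 2 = 1 := by
      rcases Nat.mod_two_eq_zero_or_one (Function.minimalPeriod (fc I) a) with h1 | h1
      · have := (Nat.dvd_of_mod_eq_zero h1).trans hd
        omega
      · exact h1
    refine h a (hal 0) ha (Function.minimalPeriod (fc I) a - 1) (by omega) (by omega) ?_
    rw [Nat.sub_add_cancel hpos]
    exact Function.isPeriodicPt_minimalPeriod (fc I) a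

end

/-- iterated first choices -/
def itf (I : Prefs) (j a : ℕ) : ℕ := (fc I)^[((List.range I.length).take (j + 1)).length] a

/-- the algorithm -/
def alg2 (L : ℕ) (I : Prefs) : Bool :=
  instB L I && (rg I).all fun a => decide (plist I a = []) || (rg I).all fun j =>
    decide (j % 2 = 1) || !decide (itf I j a = a)

theorem alg2_iff {L : ℕ} {I : Prefs} : alg2 L I = true ↔
    (IsInst I ∧ (∀ l ∈ I, l.length ≤ L)) ∧ NoOdd I := by
  unfold alg2
  rw [Bool.and_eq_true, instB_iff]
  refine and_congr_right fun h => ?_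
  rw [noOdd_iff h.1]
  simp only [List.all_eq_true, rg, List.mem_range, Bool.or_eq_true, decide_eq_true_eq,
    Bool.not_eq_true', decide_eq_false_iff_not]
  refine forall_congr' fun a => forall_congr' fun ha => ?_
  have hit : ∀ j < I.length, itf I j a = (fc I)^[j + 1] a := by
    intro j hj
    unfold itf
    rw [List.length_take, List.length_range, Nat.min_eq_left (by omega)]
  constructor
  · rintro (h1 | h1) h2 j hj hj2
    · exact absurd h1 h2
    · rcases h1 j hj with h3 | h3
      · omega
      · rwa [hit j hj] at h3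
  · intro h1
    by_cases h2 : plist I a = []
    · exact Or.inl h2
    · refine Or.inr fun j hj => ?_
      rcases Nat.mod_two_eq_zero_or_one j with h3 | h3
      · exact Or.inr (by rw [hit j hj]; exact h1 h2 j hj h3)
      · exact Or.inl h3

@[fun_prop]
theorem fc_poly {α : Type} [TEnc α] {f : α → Prefs} {i : α → ℕ} (hf : Poly f) (hi : Poly i) :
    Poly (fun a => fc (f a) (i a)) := by
  unfold fc
  fun_prop

theorem sz_fc {I : Prefs} {a : ℕ} (h : plist I a ≠ []) : sz (fc I a) ≤ sz I := by
  have h1 := sz_le_of_mem (fc_mem h)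
  have h2 : plist I a ∈ I := by
    unfold plist at h ⊢
    by_cases ha : a < I.length
    · rw [List.getD_eq_getElem _ _ ha]
      exact List.getElem_mem ha
    · rw [List.getD_eq_default _ _ (by omega)] at h
      exact absurd rfl h
  have h3 := sz_le_of_mem h2
  omega

theorem fc_eq {I : Prefs} {a : ℕ} (h : plist I a = []) : fc I a = a := by
  simp [fc, h]

theorem sz_iter (I : Prefs) (a k : ℕ) : sz ((fc I)^[k] a) ≤ sz I + sz a := by
  induction k with
  | zero => simp
  | succ k ih =>
    rw [Function.iterate_succ_apply']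
    by_cases h : plist I ((fc I)^[k] a) = []
    · rw [fc_eq h]; exact ih
    · have := sz_fc h
      omega

theorem itf_poly' : Poly (fun p : Prefs × ℕ × ℕ => itf p.1 p.2.1 p.2.2) := by
  unfold itf
  refine NPC.Poly.iterLen (l := fun p : Prefs × ℕ × ℕ => (List.range p.1.length).take (p.2.1 + 1))
    (s := fun p => p.2.2) (F := fun p x => fc p.1 x) ?_ (by fun_prop) (by fun_prop)
    (Polynomial.X) ?_
  · have h : Poly (fun p : Prefs × ℕ × ℕ => List.range p.1.length) :=
      (UPoly.length (by fun_prop)).range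
    exact PSp.poly_take h (by fun_prop)
  · rintro ⟨I, j, a⟩ k _
    have := sz_iter I a k
    simp only [Polynomial.eval_X, sz_pair]
    change sz ((fc I)^[k] a) ≤ _
    omega

@[fun_prop]
theorem itf_poly {α : Type} [TEnc α] {f : α → Prefs} {i j : α → ℕ} (hf : Poly f) (hi : Poly i)
    (hj : Poly j) : Poly (fun a => itf (f a) (i a) (j a)) :=
  itf_poly'.comp (f := fun a => (f a, i a, j a)) (by fun_prop)

theorem alg2_poly (L : ℕ) : Poly (alg2 L) := by
  unfold alg2
  have h : Poly (fun I : Prefs => instB L I) := instB_poly L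
  fun_prop

theorem inP_of_eq {L : ℕ} {Q : Prefs → Prop} (h : ∀ I, Q I ↔ alg2 L I = true) :
    InP (lang Q) := by
  have h1 : InPP (fun I : Prefs => alg2 L I = true) := inPP_of (alg2_poly L) fun _ => Iff.rfl
  have h2 : (fun I : Prefs => alg2 L I = true) = Q := funext fun I => propext (h I).symm
  rw [h2] at h1
  exact h1

theorem inP_cs {L : ℕ} (hL : L ≤ 2) : InP (lang (CS L)) := by
  refine inP_of_eq (L := L) fun I => ?_
  rw [alg2_iff]
  constructor
  · rintro ⟨h3, h4, h5⟩
    exact ⟨⟨h3, h4⟩, ((stable_iff h3 (fun l hl => (h4 l hl).trans hL) (k := 2) le_rfl).2).1 h5⟩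
  · rintro ⟨⟨h3, h4⟩, h5⟩
    exact ⟨h3, h4, ((stable_iff h3 (fun l hl => (h4 l hl).trans hL) (k := 2) le_rfl).2).2 h5⟩

theorem inP_csk {k L : ℕ} (hk : 2 ≤ k) (hL : L ≤ 2) : InP (lang (CSk k L)) := by
  refine inP_of_eq (L := L) fun I => ?_
  rw [alg2_iff]
  constructor
  · rintro ⟨h3, h4, h5⟩
    exact ⟨⟨h3, h4⟩, ((stable_iff h3 (fun l hl => (h4 l hl).trans hL) hk).1).1 h5⟩
  · rintro ⟨⟨h3, h4⟩, h5⟩
    exact ⟨h3, h4, ((stable_iff h3 (fun l hl => (h4 l hl).trans hL) hk).1).2 h5⟩

end Pool.Agent.V11231.CSR
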